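import Pool.Agent.Results.MP_50bb2e_nt.SimultaneousNonvanishing
import Pool.Agent.L0h2.XP.FLD
import Pool.Agent.L0h74.GF.KeyLaw
import Pool.Agent.L0h74.GF.PlaceF

/-!
# Goldfeld's conjecture over multiquadratic fields: exact proportions for base-changed characters

`F ≠ ℚ` is a multiquadratic number field; `π_F` and `π'_F` are the base changes to `F` of the
representations `π`, `π'` attached to `X_0(49) : y² + x y = x³ - x² - 2 x - 1` and to
`X_0(36) : y² = x³ + 1`, and `χ_n` is the quadratic character of `ℚ(√n)` and also, by composition with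
the norm, the quadratic character of `F(√n)` over `F`. We consider any finite number of representations
of `GL₂(𝔸_F)`

`π_F ⊗ χ_{d_1}, …, π_F ⊗ χ_{d_s}, π'_F ⊗ χ_{d'_1}, …, π'_F ⊗ χ_{d'_t}`,

where `√-7 ∉ F` if `s > 0`, and `√-1, √3, √-3 ∉ F` if `t > 0`, and no two of them are equivalent; they are
the representations attached to the elliptic curves `y² = x³ - 35 d_i² x - 98 d_i³` and `y² = x³ + d'_j³`
over `F`.

The family consists of the characters `χ_e`, `e` a squarefree integer, which have prescribed components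
at a finite set `S` of finite places of `F`, and also at the real places if `inf` holds (equal to the
components of a given member `χ_{e₀}` of the family), such that all the root numbers of `π ⊗ χ_{d_i m e}` and `π' ⊗ χ_{d'_j m e}` over
`ℚ` are `+1`, `m` running over the squarefree integers with `√m ∈ F` (so that the products, the root
numbers of `π_F ⊗ χ_{d_i} ⊗ χ_e` and `π'_F ⊗ χ_{d'_j} ⊗ χ_e`, are `+1`). It is ordered by the norm of the
conductor of the character `χ_e` of `F`. (`χ_e` and `χ_{e'}` are the same character of `F` if and only if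
`e e'` is `m` times a square with `√m ∈ F`; so all the characters of `F` of the family are counted
equally often, `[F : ℚ]` times if `F` is real or if `inf` does not hold.)

`GoodAll F (e d_i)` says that `Good (e d_i m)` holds for all these `m`.

(1) The joint law. Each of the `2^(s+t)` patterns of the events `GoodAll F (e d_i)`, `GoodAll' F (e d'_j)`
has an exact proportion in the family, the product `lawOver n b * lawOver n b'`, `n = [F : ℚ]`, where
`lawOver n b = (1/2) ∏ (c₂^n or 1 - c₂^n)`, plus `1/2` if `b` is all false.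
(2) `GoodAll F (e d_i)` implies `ord_{s = 1/2} L(s, π_F ⊗ χ_{d_i} ⊗ χ_e) = 0`, with the complete Hasse–Weil
Euler product over all the prime ideals of `F`, and all the points over `F` of the twist of the elliptic
curve have finite order; similarly for `π'_F`.
(3) So for all large `X` all these `s + t` functions are nonzero at the centre for more than `c` times the
number of the `e` of the family, for each `c < allOf (s n) * allOf (t n)`, where `allOf k = c₂^k / 2` if
`k > 0` and `allOf 0 = 1`;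
(4) and at least one of them is nonzero at the centre for more than `c` times the number of the `e` of
the family, for each `c < 1 - (1 + (1 - c₂^n)^s) (1 + (1 - c₂^n)^t) / 4`, which is as near to `3/4` as one
likes.

Proof. The joint law behind `Results/MP_50bb2e_nt/SimultaneousNonvanishing.lean` for the `s n` twists
`d_i m` and the `t n` twists `d'_j m` (`Pool/Agent/L0h86/XF`, `Pool/Agent/L0h23/XS`), on each of the
classes on which the norm of the conductor is proportional to `|e|^n` and the components at the places in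
`S` are constant (`Pool/Agent/L0h74/GF/KeyLaw.lean`, `PlaceF.lean`),
the Euler product over a multiquadratic field (`Pool/Agent/L0h74/NF`), and `Pool/Agent/L0h2/XP`.
-/

set_option autoImplicit false

open scoped Classical
open NumberField IsDedekindDomain

namespace Pool.Agent.Results.MP_50bb2e_nt.MultiquadraticBaseFields

open Pool.Agent.Results.MP_50bb2e_nt.SimultaneousNonvanishing
  (RootPlus RootPlus' Good Good' c₂ allOf law root7_iff root3_iff root7_ne root3_ne
    good7_iff good3_iff)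

/-! ### The elliptic curves over `F` and their `L`-functions -/

/-- The quadratic twist by `n` of `X_0(49)`, over `F`: the curve `y² = x³ - 35 n² x - 98 n³`. -/
def curve (F : Type) [Field F] (n : ℤ) : WeierstrassCurve F :=
  { a₁ := 0, a₂ := 0, a₃ := 0, a₄ := -35 * (n : F) ^ 2, a₆ := -98 * (n : F) ^ 3 }

/-- The quadratic twist by `n` of `X_0(36)`, over `F`: the curve `y² = x³ + n³`. -/
def curve' (F : Type) [Field F] (n : ℤ) : WeierstrassCurve F :=
  { a₁ := 0, a₂ := 0, a₃ := 0, a₄ := 0, a₆ := (n : F) ^ 3 }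

/-- `M P` is an equation of `E` over the integers which is minimal at the prime ideal `P`, for all `P`. -/
def IsMinimal {F : Type} [Field F] [NumberField F] (E : WeierstrassCurve F)
    (M : {P : Ideal (𝓞 F) // P.IsPrime ∧ P ≠ ⊥} → WeierstrassCurve (𝓞 F)) : Prop :=
  ∀ P, (∃ C : WeierstrassCurve.VariableChange F, C • E = (M P).map (algebraMap (𝓞 F) F)) ∧
      ∀ W : WeierstrassCurve (𝓞 F),
        (∃ C : WeierstrassCurve.VariableChange F, C • E = W.map (algebraMap (𝓞 F) F)) →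
        ∀ n : ℕ, (M P).Δ ∈ P.1 ^ n → W.Δ ∈ P.1 ^ n

/-- The Euler factor at the prime ideal `P` of the Hasse–Weil `L`-function, with the centre `s = 1/2`. -/
noncomputable def eulerFactor {F : Type} [Field F] [NumberField F]
    (M : {P : Ideal (𝓞 F) // P.IsPrime ∧ P ≠ ⊥} → WeierstrassCurve (𝓞 F)) (s : ℂ)
    (P : {P : Ideal (𝓞 F) // P.IsPrime ∧ P ≠ ⊥}) : ℂ :=
  (1 - ((Nat.card (𝓞 F ⧸ P.1) : ℂ)
               - (Nat.card {xy : (𝓞 F ⧸ P.1) × (𝓞 F ⧸ P.1) //
                   ((M P).map (Ideal.Quotient.mk P.1)).toAffine.Equation xy.1 xy.2} : ℂ))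
             * (Nat.card (𝓞 F ⧸ P.1) : ℂ) ^ (-(s + 1 / 2))
           + (if (M P).Δ ∈ P.1 then 0 else (Nat.card (𝓞 F ⧸ P.1) : ℂ) ^ (-2 * s)))⁻¹

/-- The `L`-function of `E` with the centre `s = 1/2` has order zero at the centre: there are families of
minimal equations; for each of them, the Euler product over all the prime ideals, which converges for
`Re s > 1`, has an analytic continuation to a connected open set with `Re s > 1` and `s = 1/2`, and each
such continuation has order zero at `s = 1/2`. -/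
def OrderZero {F : Type} [Field F] [NumberField F] (E : WeierstrassCurve F) : Prop :=
  (∃ M : {P : Ideal (𝓞 F) // P.IsPrime ∧ P ≠ ⊥} → WeierstrassCurve (𝓞 F), IsMinimal E M) ∧
  ∀ M : {P : Ideal (𝓞 F) // P.IsPrime ∧ P ≠ ⊥} → WeierstrassCurve (𝓞 F), IsMinimal E M →
    (∃ (U : Set ℂ) (f : ℂ → ℂ), IsOpen U ∧ IsConnected U ∧ (1 / 2 : ℂ) ∈ U ∧
      {s : ℂ | 1 < s.re} ⊆ U ∧ AnalyticOnNhd ℂ f U ∧
      ∀ s : ℂ, 1 < s.re → HasProd (fun P => eulerFactor M s P) (f s)) ∧
    ∀ (U : Set ℂ) (f : ℂ → ℂ), IsOpen U → IsConnected U → (1 / 2 : ℂ) ∈ U →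
      {s : ℂ | 1 < s.re} ⊆ U → AnalyticOnNhd ℂ f U →
      (∀ s : ℂ, 1 < s.re → HasProd (fun P => eulerFactor M s P) (f s)) →
      analyticOrderAt f (1 / 2) = 0

/-! ### The fields and the family -/

/-- `F` is a multiquadratic field: a Galois extension of `ℚ`, different from `ℚ`, whose Galois group has
exponent two. (For `F = ℚ` see `SimultaneousNonvanishing.lean`.) -/
def IsMultiquadratic (F : Type) [Field F] [NumberField F] : Prop :=
  (IsGalois ℚ F ∧ ∀ σ : F ≃ₐ[ℚ] F, σ * σ = 1) ∧ 1 < Module.finrank ℚ F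

/-- The squarefree integers `m` such that `√m ∈ F`; there are `[F : ℚ]` of them. -/
def Characters (F : Type) [Field F] : Set ℤ := {m | Squarefree m ∧ IsSquare (m : F)}

/-- The family: the squarefree `e` such that for all `i`, `j` and all the squarefree `m` with `√m ∈ F` the
root numbers of `π ⊗ χ_{d_i m e}` and of `π' ⊗ χ_{d'_j m e}` are `+1`, and the characters `χ_e` and `χ_{e₀}`
of `F` have the same component at all the finite places in `S` (`e e₀` is a square in the completion `F_v`),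
and at the real places if `inf` holds. -/
def Fam (F : Type) [Field F] [NumberField F] {s t : ℕ} (d : Fin s → ℤ) (d' : Fin t → ℤ) (e₀ : ℤ)
    (S : Finset (HeightOneSpectrum (𝓞 F))) (inf : Prop) : Set ℤ :=
  {e | Squarefree e ∧
    (∀ m ∈ Characters F, (∀ i, RootPlus (e * (d i * m))) ∧ ∀ j, RootPlus' (e * (d' j * m))) ∧
    (∀ v ∈ S, IsSquare ((e * e₀ : ℤ) : v.adicCompletion F)) ∧ (inf → 0 < e * e₀)}

/-- `Good (n m)` holds for all the squarefree `m` with `√m ∈ F`. -/
def GoodAll (F : Type) [Field F] (n : ℤ) : Prop := ∀ m ∈ Characters F, Good (n * m)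

/-- `Good' (n m)` holds for all the squarefree `m` with `√m ∈ F`. -/
def GoodAll' (F : Type) [Field F] (n : ℤ) : Prop := ∀ m ∈ Characters F, Good' (n * m)

/-- The norm of the conductor of the character `χ_e` of `F` (the base change to `F` of the character of
`ℚ(√e)`), multiplied by the constant `|disc F|`: by the conductor-discriminant formula, this is the
product of the conductors of the characters `χ_{em}` of `ℚ`, `√m ∈ F`. (`e m / gcd(e, m)²` is the
squarefree part of `e m`.) -/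
noncomputable def normConductor (F : Type) [Field F] (e : ℤ) : ℕ :=
  ∏ᶠ m ∈ Characters F, SimultaneousNonvanishing.conductor (e * m / (Int.gcd e m : ℤ) ^ 2)

/-- The proportion of the `e` of the family `A` with `Q e` among those with `normConductor F e ≤ X`. -/
noncomputable def shareOver (F : Type) [Field F] (A : Set ℤ) (Q : ℤ → Prop) (X : ℕ) : ℝ :=
  ({e ∈ A | normConductor F e ≤ X ∧ Q e}.ncard : ℝ) / ({e ∈ A | normConductor F e ≤ X}.ncard : ℝ)

/-- The law of the events for the representations of one of the two kinds, over a field of degree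
`n`. -/
noncomputable def lawOver (n : ℕ) {k : ℕ} (b : Fin k → Bool) : ℝ :=
  (∏ i, if b i = true then c₂ ^ n else 1 - c₂ ^ n) / 2 + if ∀ i, b i = false then 1 / 2 else 0

section proof

open Pool.Agent.L0h86.XF (RP DnF)
open Pool.Agent.L0h74.NF (BF BF_card OrdRank Sw IsMin Pl pol IsCont)
open Filter Topology

/-! ### The analytic part -/

lemma euler_shift {F : Type} [Field F] [NumberField F] (M : Pl F → WeierstrassCurve (𝓞 F)) (s : ℂ)
    (P : Pl F) : eulerFactor M s P = (pol M (s + 1 / 2) P)⁻¹ := by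
  unfold eulerFactor pol
  rw [show (1 - 2 * (s + 1 / 2) : ℂ) = -2 * s by ring]

lemma orderZero_of {F : Type} [Field F] [NumberField F] {E : WeierstrassCurve F}
    (h : OrdRank E) : OrderZero E := by
  obtain ⟨-, h1, h2⟩ := h
  refine ⟨h1, fun M hM => ?_⟩
  obtain ⟨⟨U, f, g1, g2, g3, g4, g5, g6⟩, h3⟩ := h2 M hM
  constructor
  · refine ⟨(Homeomorph.addRight (1 / 2 : ℂ)) ⁻¹' U, fun s => f (s + 1 / 2),
      g1.preimage (Homeomorph.addRight (1 / 2 : ℂ)).continuous,
      (Homeomorph.addRight (1 / 2 : ℂ)).isConnected_preimage.2 g2, ?_, ?_, ?_, ?_⟩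
    · show (1 / 2 + 1 / 2 : ℂ) ∈ U
      rw [show (1 / 2 + 1 / 2 : ℂ) = 1 by norm_num]
      exact g3
    · intro s hs
      show s + 1 / 2 ∈ U
      apply g4
      rw [Set.mem_ofPred_eq] at hs ⊢
      rw [Complex.add_re]
      norm_num
      linarith
    · intro s hs
      exact (g5 (s + 1 / 2) hs).fun_comp (f := fun s => s + 1 / 2) (by fun_prop)
    · intro s hs
      have h4 := g6 (s + 1 / 2) (by
        rw [Complex.add_re]
        norm_num
        linarith)
      exact (congrArg (fun g => HasProd g (f (s + 1 / 2)))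
        (funext fun P => (euler_shift M s P).symm)).mp h4
  · intro U f g1 g2 g3 g4 g5 g6
    have h5 := h3 ((Homeomorph.addRight (-(1 / 2) : ℂ)) ⁻¹' U) (fun s => f (s + -(1 / 2)))
      (g1.preimage (Homeomorph.addRight (-(1 / 2) : ℂ)).continuous)
      ((Homeomorph.addRight (-(1 / 2) : ℂ)).isConnected_preimage.2 g2) (by
        show (1 + -(1 / 2) : ℂ) ∈ U
        rw [show (1 + -(1 / 2) : ℂ) = 1 / 2 by norm_num]
        exact g3) (by
        intro s hs
        show s + -(1 / 2) ∈ U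
        apply g4
        rw [Set.mem_ofPred_eq] at hs ⊢
        rw [Complex.add_re]
        norm_num
        linarith) (by
        intro s hs
        exact (g5 (s + -(1 / 2)) hs).fun_comp (f := fun s => s + -(1 / 2)) (by fun_prop)) (by
        intro s hs
        have h4 := g6 (s + -(1 / 2)) (by
          rw [Complex.add_re]
          norm_num
          linarith)
        have h5 := h4.tprod_eq
        rw [← h5]
        refine tprod_congr fun P => ?_
        rw [euler_shift, show s + -(1 / 2) + 1 / 2 = s by ring])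
    have h6 : AnalyticAt ℂ (fun s => f (s + -(1 / 2))) 1 := by
      have h7 : AnalyticAt ℂ f (1 + -(1 / 2)) := by
        rw [show (1 + -(1 / 2) : ℂ) = 1 / 2 by norm_num]
        exact g5 _ g3
      exact h7.fun_comp (f := fun s => s + -(1 / 2)) (by fun_prop)
    rw [h6.analyticOrderAt_eq_zero] at h5
    rw [(g5 _ g3).analyticOrderAt_eq_zero]
    rw [show (1 + -(1 / 2) : ℂ) = 1 / 2 by norm_num] at h5
    exact h5

lemma curve_eq (F : Type) [Field F] (n : ℤ) :
    curve F n = Sw F (Pool.Agent.L0h2.XP.ca false n) (Pool.Agent.L0h2.XP.cb false n) := by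
  show curve F n = Sw F (-35 * n ^ 2) (-98 * n ^ 3)
  unfold curve Sw
  push_cast
  rfl

lemma curve'_eq (F : Type) [Field F] (n : ℤ) :
    curve' F n = Sw F (Pool.Agent.L0h2.XP.ca true n) (Pool.Agent.L0h2.XP.cb true n) := by
  show curve' F n = Sw F 0 (n ^ 3)
  unfold curve' Sw
  push_cast
  rfl

lemma over_F {F : Type} [Field F] [NumberField F] (hF : IsMultiquadratic F) (f : Bool) {n : ℤ}
    (hn : n ≠ 0) (h : ∀ m ∈ Characters F, RP f (n * m) ∧
      Pool.Agent.L0h86.XF.Good f (DnF f (n * m))) :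
    OrderZero (Sw F (Pool.Agent.L0h2.XP.ca f n) (Pool.Agent.L0h2.XP.cb f n)) ∧
    ∀ P : (Sw F (Pool.Agent.L0h2.XP.ca f n) (Pool.Agent.L0h2.XP.cb f n)).toAffine.Point,
      IsOfFinAddOrder P := by
  have _ : IsGalois ℚ F := hF.1.1
  obtain ⟨h1, h2⟩ := Pool.Agent.L0h2.XP.ordRank_RZ hF.1.2 (Pool.Agent.L0h2.XP.cdisc f hn)
    (fun m hm => by
      rw [Pool.Agent.L0h2.XP.ca_mul, Pool.Agent.L0h2.XP.cb_mul]
      exact Pool.Agent.L0h2.XP.rz_good (h m hm).1 (h m hm).2)
  exact ⟨orderZero_of h1, h2⟩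

/-! ### The arithmetic part -/

/-- all the twists -/
def flat {k n : ℕ} (C : Set ℤ) (σ : Fin (k * n) ≃ Fin k × C) (d : Fin k → ℤ) (l : Fin (k * n)) : ℤ :=
  d (σ l).1 * ((σ l).2 : ℤ)

lemma exists_flat {F : Type} [Field F] [NumberField F] (hF : IsMultiquadratic F) (k : ℕ) :
    Nonempty (Fin (k * Module.finrank ℚ F) ≃ Fin k × Characters F) := by
  have _ : IsGalois ℚ F := hF.1.1
  obtain ⟨h1, h2⟩ := BF_card (F := F) hF.1.2
  have hf : Finite (Characters F) := h1.to_subtype
  have hc : Nat.card (Characters F) = Module.finrank ℚ F := h2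
  have h3 : Nat.card (Fin k × Characters F) = k * Module.finrank ℚ F := by
    rw [Nat.card_prod, Nat.card_fin, hc]
  exact ⟨(Finite.equivFinOfCardEq h3).symm⟩

lemma flat_all {k n : ℕ} {C : Set ℤ} (σ : Fin (k * n) ≃ Fin k × C) (d : Fin k → ℤ) (p : ℤ → Prop) :
    (∀ l, p (flat C σ d l)) ↔ ∀ m ∈ C, ∀ i, p (d i * m) := by
  constructor
  · intro h m hm i
    have h1 := h (σ.symm (i, ⟨m, hm⟩))
    unfold flat at h1
    rw [Equiv.apply_symm_apply] at h1
    exact h1
  · intro h l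
    exact h _ (σ l).2.2 _

/-- a product of two of the numbers `d_i m` is not `c k²` -/
lemma flat_ne {F : Type} [Field F] [CharZero F] {k n : ℕ} (σ : Fin (k * n) ≃ Fin k × Characters F)
    {d : Fin k → ℤ} {c : ℤ} (l l' : Fin (k * n))
    (h : ¬ IsSquare ((c * (d (σ l).1 * d (σ l').1) : ℤ) : F)) (m : ℤ) :
    flat (Characters F) σ d l * flat (Characters F) σ d l' ≠ c * m ^ 2 := by
  intro h1
  apply h
  obtain ⟨a, ha⟩ := (σ l).2.2.2
  obtain ⟨b, hb⟩ := (σ l').2.2.2
  have ha0 : ((((σ l).2 : ℤ)) : F) ≠ 0 := by exact_mod_cast (σ l).2.2.1.ne_zero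
  have hb0 : ((((σ l').2 : ℤ)) : F) ≠ 0 := by exact_mod_cast (σ l').2.2.1.ne_zero
  have ha1 : a ≠ 0 := by
    rintro rfl
    exact ha0 (by rw [ha, mul_zero])
  have hb1 : b ≠ 0 := by
    rintro rfl
    exact hb0 (by rw [hb, mul_zero])
  unfold flat at h1
  have h2 : ((d (σ l).1 : F) * (((σ l).2 : ℤ) : F)) * ((d (σ l').1 : F) * (((σ l').2 : ℤ) : F)) =
      (c : F) * (m : F) ^ 2 := by
    exact_mod_cast congrArg (fun z : ℤ => (z : F)) h1
  rw [ha, hb] at h2
  refine ⟨(c : F) * (m : F) / (a * b), ?_⟩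
  push_cast
  field_simp
  linear_combination (c : F) * h2

/-- a product of two of the numbers `d_i m` is not a square -/
lemma flat_sq {F : Type} [Field F] [CharZero F] {k n : ℕ} (σ : Fin (k * n) ≃ Fin k × Characters F)
    {d : Fin k → ℤ} (hd0 : ∀ i, d i ≠ 0)
    (h : ∀ i j, i ≠ j → ¬ IsSquare ((d i * d j : ℤ) : F)) {l l' : Fin (k * n)} (hl : l ≠ l') (m : ℤ) :
    flat (Characters F) σ d l * flat (Characters F) σ d l' ≠ m ^ 2 := by
  by_cases hi : (σ l).1 = (σ l').1
  · intro h1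
    apply hl
    apply σ.injective
    refine Prod.ext hi (Subtype.ext ?_)
    unfold flat at h1
    rw [← hi] at h1
    have h0 := hd0 (σ l).1
    have h2 : (d (σ l).1) ^ 2 ∣ m ^ 2 := ⟨((σ l).2 : ℤ) * ((σ l').2 : ℤ), by rw [← h1]; ring⟩
    obtain ⟨t, rfl⟩ := (Int.pow_dvd_pow_iff two_ne_zero).1 h2
    apply Pool.Agent.L0h74.NF.sq_prod (σ l).2.2.1 (σ l').2.2.1
    refine ⟨t, ?_⟩
    apply mul_left_cancel₀ (pow_ne_zero 2 h0)
    linear_combination h1
  · intro h1
    refine flat_ne (c := 1) σ l l' ?_ m (by rw [one_mul]; exact h1)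
    rw [one_mul]
    exact h _ _ hi

/-- the conditions at the places -/
def Loc (F : Type) [Field F] [NumberField F] (e₀ : ℤ) (S : Finset (HeightOneSpectrum (𝓞 F)))
    (inf : Prop) (e : ℤ) : Prop :=
  (∀ v ∈ S, IsSquare ((e * e₀ : ℤ) : v.adicCompletion F)) ∧ (inf → 0 < e * e₀)

lemma fam_flat {F : Type} [Field F] [NumberField F] {s t n : ℕ}
    (σ : Fin (s * n) ≃ Fin s × Characters F)
    (τ : Fin (t * n) ≃ Fin t × Characters F) (d : Fin s → ℤ) (d' : Fin t → ℤ) (e₀ : ℤ)
    (S : Finset (HeightOneSpectrum (𝓞 F))) (inf : Prop) (e : ℤ) :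
    e ∈ Fam F d d' e₀ S inf ↔ Squarefree e ∧
      ((∀ l, RP false (e * flat (Characters F) σ d l)) ∧
        ∀ l, RP true (e * flat (Characters F) τ d' l)) ∧ Loc F e₀ S inf e := by
  unfold Fam Loc
  rw [Set.mem_ofPred_eq, flat_all σ d fun x => RP false (e * x),
    flat_all τ d' fun x => RP true (e * x)]
  simp only [root7_iff, root3_iff]
  constructor
  · rintro ⟨h1, h2, h4⟩
    exact ⟨h1, ⟨fun m hm => (h2 m hm).1, fun m hm => (h2 m hm).2⟩, h4⟩
  · rintro ⟨h1, ⟨h2, h3⟩, h4⟩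
    exact ⟨h1, fun m hm => ⟨h2 m hm, h3 m hm⟩, h4⟩

lemma loc_class {F : Type} [Field F] [NumberField F] {u : ℕ} (hu0 : 0 < u) (e₀ : ℤ)
    {S : Finset (HeightOneSpectrum (𝓞 F))} (hS : ∀ v ∈ S, 4 * Ideal.absNorm v.asIdeal ∣ u)
    (inf : Prop) : Pool.Agent.L0h74.AP.ClassFn u (Loc F e₀ S inf) :=
  Pool.Agent.L0h74.AP.ClassFn.and
    (Pool.Agent.L0h74.AP.ClassFn.all fun v => Pool.Agent.L0h74.AP.ClassFn.all fun hv =>
      Pool.Agent.L0h74.GF.placeF v (hS v hv) e₀)
    ((Pool.Agent.L0h74.AP.classFn_const inf).imp (Pool.Agent.L0h74.AP.classFn_sign hu0 e₀))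

lemma one_mem {F : Type} [Field F] : (1 : ℤ) ∈ Characters F :=
  ⟨squarefree_one, ⟨1, by push_cast; rw [mul_one]⟩⟩

/-! ### Sums over patterns -/

/-- the weight of a bit -/
noncomputable def wt (c : ℝ) (x : Bool) : ℝ := if x = true then c else 1 - c

lemma sum_wt (c : ℝ) (C : Type) [Fintype C] : ∑ h : C → Bool, ∏ m, wt c (h m) = 1 := by
  have h1 := Finset.prod_univ_sum (fun _ : C => (Finset.univ : Finset Bool)) fun _ x => wt c x
  rw [Fintype.piFinset_univ] at h1
  rw [← h1]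
  apply Finset.prod_eq_one
  intro m _
  rw [Fintype.sum_bool]
  unfold wt
  norm_num

lemma sum_all (c : ℝ) (C : Type) [Fintype C] (β : Bool) :
    ∑ h : C → Bool, (if ((∀ m, h m = true) ↔ β = true) then ∏ m, wt c (h m) else 0) =
      wt (c ^ Fintype.card C) β := by
  have h1 : ∑ h : C → Bool, (if (∀ m, h m = true) then ∏ m, wt c (h m) else 0) =
      c ^ Fintype.card C := by
    rw [Finset.sum_eq_single (fun _ => true)]
    · rw [if_pos fun _ => rfl]
      unfold wt
      simp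
    · intro h _ hne
      rw [if_neg]
      intro h2
      exact hne (funext h2)
    · intro h
      exact absurd (Finset.mem_univ _) h
  cases β
  · have h2 : ∀ h : C → Bool, (if ((∀ m, h m = true) ↔ false = true) then ∏ m, wt c (h m) else 0) =
        ∏ m, wt c (h m) - (if (∀ m, h m = true) then ∏ m, wt c (h m) else 0) := by
      intro h
      by_cases h3 : ∀ m, h m = true
      · rw [if_pos h3, if_neg (by simp [h3]), sub_self]
      · rw [if_neg h3, if_pos (by simp [h3]), sub_zero]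
    rw [Finset.sum_congr rfl fun h _ => h2 h, Finset.sum_sub_distrib, sum_wt, h1]
    rfl
  · simp only [iff_true]
    rw [h1]
    rfl

lemma sum_pat (c : ℝ) {L k : ℕ} (C : Type) [Fintype C] (σ : Fin L ≃ Fin k × C) (β : Fin k → Bool) :
    ∑ b : Fin L → Bool, (if (∀ i, ((∀ m, b (σ.symm (i, m)) = true) ↔ β i = true)) then
      ∏ l, wt c (b l) else 0) = ∏ i, wt (c ^ Fintype.card C) (β i) := by
  have e : ∀ b : Fin L → Bool, (if (∀ i, ((∀ m, b (σ.symm (i, m)) = true) ↔ β i = true)) then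
      ∏ l, wt c (b l) else 0) = ∏ i, (if ((∀ m, b (σ.symm (i, m)) = true) ↔ β i = true) then
        ∏ m, wt c (b (σ.symm (i, m))) else 0) := by
    intro b
    by_cases h : ∀ i, ((∀ m, b (σ.symm (i, m)) = true) ↔ β i = true)
    · rw [if_pos h, Finset.prod_congr rfl fun i _ => if_pos (h i), ← Fintype.prod_prod_type',
        ← Equiv.prod_comp σ.symm]
    · rw [if_neg h]
      obtain ⟨i, hi⟩ := not_forall.1 h
      exact (Finset.prod_eq_zero (Finset.mem_univ i) (if_neg hi)).symm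
  rw [Finset.sum_congr rfl fun b _ => e b]
  set ψ : (Fin L → Bool) ≃ (Fin k → C → Bool) :=
    (Equiv.arrowCongr σ (Equiv.refl Bool)).trans (Equiv.curry (Fin k) C Bool) with hψ
  have e2 := Equiv.sum_comp ψ fun g : Fin k → C → Bool =>
    ∏ i, (if ((∀ m, g i m = true) ↔ β i = true) then ∏ m, wt c (g i m) else 0)
  have e3 : ∀ (b : Fin L → Bool) i m, ψ b i m = b (σ.symm (i, m)) := fun b i m => rfl
  simp only [e3] at e2
  rw [e2]
  have h1 := Finset.prod_univ_sum (fun _ : Fin k => (Finset.univ : Finset (C → Bool)))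
    fun i h => (if ((∀ m, h m = true) ↔ β i = true) then ∏ m, wt c (h m) else 0)
  rw [Fintype.piFinset_univ] at h1
  rw [← h1]
  exact Finset.prod_congr rfl fun i _ => sum_all c C (β i)

lemma sum_false {L k : ℕ} (C : Type) [Fintype C] [Nonempty C] (σ : Fin L ≃ Fin k × C)
    (β : Fin k → Bool) :
    ∑ b : Fin L → Bool, (if (∀ i, ((∀ m, b (σ.symm (i, m)) = true) ↔ β i = true)) then
      (if ∀ l, b l = false then (1 / 2 : ℝ) else 0) else 0) =
      if ∀ i, β i = false then (1 / 2 : ℝ) else 0 := by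
  rw [Finset.sum_eq_single (fun _ => false)]
  · rw [if_pos (fun _ => rfl)]
    refine if_congr ?_ rfl rfl
    refine forall_congr' fun i => ?_
    cases β i
    · simp
    · simp
  · intro b _ hne
    rw [if_neg (c := ∀ l, b l = false) (fun h => hne (funext h)), ite_self]
  · intro h
    exact absurd (Finset.mem_univ _) h

/-- the patterns over `F` in terms of the patterns over `ℚ` -/
noncomputable def pats {L k : ℕ} {C : Type} (σ : Fin L ≃ Fin k × C) (β : Fin k → Bool) :
    Finset (Fin L → Bool) :=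
  Finset.univ.filter fun b => ∀ i, ((∀ m, b (σ.symm (i, m)) = true) ↔ β i = true)

lemma sum_law {L k n : ℕ} {C : Type} [Finite C] [Nonempty C] (hn : Nat.card C = n)
    (σ : Fin L ≃ Fin k × C) (β : Fin k → Bool) :
    ∑ b ∈ pats σ β, law b = lawOver n β := by
  have _ : Fintype C := Fintype.ofFinite C
  have hn' : Fintype.card C = n := by rw [← hn, Nat.card_eq_fintype_card]
  unfold pats
  rw [Finset.sum_filter]
  have e : ∀ b : Fin L → Bool, (if (∀ i, ((∀ m, b (σ.symm (i, m)) = true) ↔ β i = true)) then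
      law b else 0) = (if (∀ i, ((∀ m, b (σ.symm (i, m)) = true) ↔ β i = true)) then
        ∏ l, wt c₂ (b l) else 0) / 2 +
        (if (∀ i, ((∀ m, b (σ.symm (i, m)) = true) ↔ β i = true)) then
          (if ∀ l, b l = false then (1 / 2 : ℝ) else 0) else 0) := by
    intro b
    split_ifs with h1 h2
    · unfold law wt
      rw [if_pos h2]
    · unfold law wt
      rw [if_neg h2]
    · norm_num
  have h : ∑ b : Fin L → Bool, (if (∀ i, ((∀ m, b (σ.symm (i, m)) = true) ↔ β i = true)) then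
      law b else 0) = lawOver n β := by
    rw [Finset.sum_congr rfl fun b _ => e b, Finset.sum_add_distrib, ← Finset.sum_div, sum_pat,
      sum_false, hn']
    rfl
  rw [← h]
  refine Finset.sum_congr rfl fun b _ => ?_
  split_ifs
  · rfl
  · rfl

lemma sum_share {κ : Type} {A : Set ℤ} (hA : A.Finite) (pat : ℤ → κ) (T : Finset κ) :
    ({e ∈ A | pat e ∈ T}.ncard : ℝ) = ∑ b ∈ T, ({e ∈ A | pat e = b}.ncard : ℝ) := by
  rw [Pool.Agent.L0h74.GF.ncard_fiber (A := {e ∈ A | pat e ∈ T}) (k := pat) (T := T)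
    (fun e he => he.2) (hA.subset fun e he => he.1)]
  push_cast
  refine Finset.sum_congr rfl fun b hb => ?_
  congr 2
  ext e
  simp only [Set.mem_ofPred_eq]
  constructor
  · rintro ⟨⟨h1, -⟩, h2⟩
    exact ⟨h1, h2⟩
  · rintro ⟨h1, h2⟩
    exact ⟨⟨h1, by rw [h2]; exact hb⟩, h2⟩

lemma lawOver_true {n k : ℕ} (hn : n ≠ 0) : lawOver n (fun _ : Fin k => true) = allOf (k * n) := by
  unfold lawOver allOf
  rcases Nat.eq_zero_or_pos k with rfl | hk
  · rw [zero_mul, if_pos rfl, if_pos (fun i => i.elim0), Finset.univ_eq_empty, Finset.prod_empty]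
    norm_num
  · rw [if_neg (Nat.mul_ne_zero hk.ne' hn), if_neg (fun h => by simpa using h ⟨0, hk⟩), add_zero]
    congr 1
    rw [Finset.prod_congr rfl fun i _ => if_pos rfl, Finset.prod_const, Finset.card_univ,
      Fintype.card_fin, ← pow_mul, mul_comm n k]

lemma lawOver_false {n k : ℕ} :
    lawOver n (fun _ : Fin k => false) = (1 + (1 - c₂ ^ n) ^ k) / 2 := by
  unfold lawOver
  rw [if_pos (fun _ => rfl), Finset.prod_congr rfl fun i _ => if_neg (by simp),
    Finset.prod_const, Finset.card_univ, Fintype.card_fin]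
  ring

/-! ### The norm of the conductor -/

lemma part_mul (e m : ℤ) :
    (e * m / (Int.gcd e m : ℤ) ^ 2) * (Int.gcd e m : ℤ) ^ 2 = e * m := by
  apply Int.ediv_mul_cancel
  rw [pow_two]
  exact mul_dvd_mul (Int.gcd_dvd_left _ _) (Int.gcd_dvd_right _ _)

lemma part_ne {e m : ℤ} (he : e ≠ 0) (hm : m ≠ 0) : e * m / (Int.gcd e m : ℤ) ^ 2 ≠ 0 := by
  intro h
  have h1 := part_mul e m
  rw [h, zero_mul] at h1
  exact mul_ne_zero he hm h1.symm

lemma conductor_pos {c : ℤ} (hc : c ≠ 0) : 0 < SimultaneousNonvanishing.conductor c := by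
  have := Int.natAbs_pos.2 hc
  unfold SimultaneousNonvanishing.conductor
  split_ifs <;> omega

lemma conductor_part {u : ℕ} (h4 : 4 ∣ u) {m : ℤ} (hm : m.natAbs ∣ u) (hm0 : m ≠ 0)
    {e e' : ℤ} (he : e ≠ 0)
    (h : Pool.Agent.L0h74.AP.key u e = Pool.Agent.L0h74.AP.key u e') :
    SimultaneousNonvanishing.conductor (e * m / (Int.gcd e m : ℤ) ^ 2) * e'.natAbs =
      SimultaneousNonvanishing.conductor (e' * m / (Int.gcd e' m : ℤ) ^ 2) * e.natAbs := by
  unfold Pool.Agent.L0h74.AP.key at h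
  rw [Prod.mk.injEq, Prod.mk.injEq] at h
  obtain ⟨hs, hg, hr⟩ := h
  rw [← hg] at hr
  set g := Nat.gcd e.natAbs u with hgd
  obtain ⟨a, ha⟩ : g ∣ e.natAbs := Nat.gcd_dvd_left _ _
  obtain ⟨a', ha'⟩ : g ∣ e'.natAbs := by
    rw [hg]
    exact Nat.gcd_dvd_left _ _
  have hg0 : 0 < g := Nat.pos_of_ne_zero fun h0 => he (Int.natAbs_eq_zero.1 (by rw [ha, h0, zero_mul]))
  rw [ha, ha', Nat.mul_div_cancel_left _ hg0, Nat.mul_div_cancel_left _ hg0] at hr
  have hG : Int.gcd e m = Nat.gcd g m.natAbs := by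
    rw [Int.gcd_def, hgd, Nat.gcd_assoc, Nat.gcd_eq_right hm]
  have hG' : Int.gcd e' m = Nat.gcd g m.natAbs := by
    rw [Int.gcd_def, hg, Nat.gcd_assoc, Nat.gcd_eq_right hm]
  have hm1 : 0 < m.natAbs := Int.natAbs_pos.2 hm0
  set G := Nat.gcd g m.natAbs with hGd
  have hG0 : 0 < G := Nat.gcd_pos_of_pos_right _ hm1
  obtain ⟨g₁, hg₁⟩ : G ∣ g := Nat.gcd_dvd_left _ _
  obtain ⟨m₁, hm₁⟩ : (G : ℤ) ∣ m := Int.natCast_dvd.2 (Nat.gcd_dvd_right _ _)
  have hGi : (G : ℤ) ≠ 0 := by exact_mod_cast hG0.ne'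
  have e1 : e = e.sign * ((G : ℤ) * g₁) * a := by
    rw [mul_assoc, ← Nat.cast_mul G g₁, ← hg₁, ← Nat.cast_mul, ← ha]
    exact (Int.sign_mul_natAbs e).symm
  have e2 : e' = e.sign * ((G : ℤ) * g₁) * a' := by
    rw [mul_assoc, ← Nat.cast_mul G g₁, ← hg₁, ← Nat.cast_mul, ← ha', hs]
    exact (Int.sign_mul_natAbs e').symm
  have f1 : e * m / (Int.gcd e m : ℤ) ^ 2 = e.sign * g₁ * m₁ * a := by
    rw [hG]
    apply Int.ediv_eq_of_eq_mul_left (pow_ne_zero 2 hGi)
    rw [hm₁]
    conv_lhs => rw [e1]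
    ring
  have f2 : e' * m / (Int.gcd e' m : ℤ) ^ 2 = e.sign * g₁ * m₁ * a' := by
    rw [hG']
    apply Int.ediv_eq_of_eq_mul_left (pow_ne_zero 2 hGi)
    rw [hm₁]
    conv_lhs => rw [e2]
    ring
  have hmod : (e.sign * g₁ * m₁ * a : ℤ) % 4 = (e.sign * g₁ * m₁ * a' : ℤ) % 4 := by
    apply Int.ModEq.mul_left
    have h1 : a % 4 = a' % 4 := by
      have h2 := congrArg (· % 4) hr
      simp only [Nat.mod_mod_of_dvd _ h4] at h2
      exact h2
    have h3 : ((a % 4 : ℕ) : ℤ) = ((a' % 4 : ℕ) : ℤ) := by rw [h1]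
    push_cast at h3
    exact h3
  rw [f1, f2, ha, ha']
  unfold SimultaneousNonvanishing.conductor
  rw [hmod]
  split_ifs
  · rw [Int.natAbs_mul, Int.natAbs_mul _ (a' : ℤ), Int.natAbs_natCast, Int.natAbs_natCast]
    ring
  · rw [Int.natAbs_mul, Int.natAbs_mul _ (a' : ℤ), Int.natAbs_natCast, Int.natAbs_natCast]
    ring

lemma norm_eq {F : Type} [Field F] (hfin : (Characters F).Finite) (e : ℤ) :
    normConductor F e = ∏ m ∈ hfin.toFinset,
      SimultaneousNonvanishing.conductor (e * m / (Int.gcd e m : ℤ) ^ 2) :=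
  finprod_mem_eq_finite_toFinset_prod _ hfin

lemma norm_pos {F : Type} [Field F] (hfin : (Characters F).Finite) {e : ℤ} (he : e ≠ 0) :
    0 < normConductor F e := by
  rw [norm_eq hfin]
  exact Finset.prod_pos fun m hm => conductor_pos (part_ne he
    ((Set.Finite.mem_toFinset hfin).1 hm).1.ne_zero)

lemma norm_ge {F : Type} [Field F] (hfin : (Characters F).Finite) {e : ℤ} (he : e ≠ 0) :
    e.natAbs ≤ normConductor F e := by
  have h1 : e.natAbs ≤ SimultaneousNonvanishing.conductor (e * 1 / (Int.gcd e 1 : ℤ) ^ 2) := by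
    rw [Int.gcd_one, mul_one, Nat.cast_one, one_pow, Int.ediv_one]
    unfold SimultaneousNonvanishing.conductor
    split_ifs
    · exact le_rfl
    · omega
  refine h1.trans (Nat.le_of_dvd (norm_pos hfin he) ?_)
  rw [norm_eq hfin]
  exact Finset.dvd_prod_of_mem
    (fun m : ℤ => SimultaneousNonvanishing.conductor (e * m / (Int.gcd e m : ℤ) ^ 2))
    ((Set.Finite.mem_toFinset hfin).2 one_mem)

lemma norm_pow {F : Type} [Field F] (hfin : (Characters F).Finite) {u : ℕ} (h4 : 4 ∣ u)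
    (hu : ∀ m ∈ Characters F, m.natAbs ∣ u) {e e' : ℤ} (he : e ≠ 0)
    (h : Pool.Agent.L0h74.AP.key u e = Pool.Agent.L0h74.AP.key u e') :
    normConductor F e * e'.natAbs ^ (Characters F).ncard =
      normConductor F e' * e.natAbs ^ (Characters F).ncard := by
  rw [norm_eq hfin, norm_eq hfin, Set.ncard_eq_toFinset_card _ hfin, ← Finset.prod_const,
    ← Finset.prod_const, ← Finset.prod_mul_distrib, ← Finset.prod_mul_distrib]
  refine Finset.prod_congr rfl fun m hm => ?_
  have hm' := (Set.Finite.mem_toFinset hfin).1 hm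
  exact conductor_part h4 (hu m hm') hm'.1.ne_zero he h

lemma key_finite {u : ℕ} (hu : 0 < u) (A : Set ℤ) : (Pool.Agent.L0h74.AP.key u '' A).Finite := by
  refine ((Set.finite_Icc (-1 : ℤ) 1).prod ((Set.finite_Iic u).prod (Set.finite_Iio u))).subset ?_
  rintro _ ⟨e, -, rfl⟩
  refine ⟨⟨?_, ?_⟩, ?_, ?_⟩
  · show -1 ≤ e.sign
    rcases Int.sign_trichotomy e with h | h | h <;> rw [h] <;> norm_num
  · show e.sign ≤ 1
    rcases Int.sign_trichotomy e with h | h | h <;> rw [h] <;> norm_num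
  · exact Nat.gcd_le_right _ hu
  · exact Nat.mod_lt _ hu

lemma cnt_ncard (T : ℤ → Prop) (X : ℕ) : Pool.Agent.L0h74.AP.cnt Int.natAbs T X =
    {e : ℤ | Squarefree e ∧ T e ∧ e.natAbs ≤ X}.ncard := by
  unfold Pool.Agent.L0h74.AP.cnt
  rw [← Set.ncard_coe_finset]
  congr 1
  ext e
  simp only [Finset.coe_filter, Finset.mem_Icc, Set.mem_ofPred_eq]
  constructor
  · rintro ⟨-, h1, h2, h3⟩
    exact ⟨h1, h3, h2⟩
  · rintro ⟨h1, h3, h2⟩
    refine ⟨?_, h1, h2, h3⟩
    omega

lemma abs_finite (A : Set ℤ) (X : ℕ) : {e ∈ A | e.natAbs ≤ X}.Finite := by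
  refine (Set.finite_Icc (-(X : ℤ)) X).subset ?_
  rintro e ⟨-, h⟩
  rw [Set.mem_Icc]
  omega

/-- lower bounds -/
lemma lowerH {A : Set ℤ} {H : ℤ → ℕ} (hf : ∀ X, {e ∈ A | H e ≤ X}.Finite) {P Q : ℤ → Prop}
    {l c : ℝ} (h : Tendsto (fun X : ℕ => ({e ∈ A | H e ≤ X ∧ P e}.ncard : ℝ) /
      ({e ∈ A | H e ≤ X}.ncard : ℝ)) atTop (𝓝 l)) (hPQ : ∀ e ∈ A, P e → Q e) (hc : c < l) :
    ∀ᶠ X : ℕ in atTop, c * ({e ∈ A | H e ≤ X}.ncard : ℝ) ≤
      ({e ∈ A | H e ≤ X ∧ Q e}.ncard : ℝ) := by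
  filter_upwards [h.eventually (lt_mem_nhds hc)] with X hX
  have h5 : ({e ∈ A | H e ≤ X ∧ P e}.ncard : ℝ) ≤ ({e ∈ A | H e ≤ X ∧ Q e}.ncard : ℝ) := by
    have h6 : {e ∈ A | H e ≤ X ∧ P e} ⊆ {e ∈ A | H e ≤ X ∧ Q e} :=
      fun e he => ⟨he.1, he.2.1, hPQ e he.1 he.2.2⟩
    have h7 : {e ∈ A | H e ≤ X ∧ Q e}.Finite := (hf X).subset fun e he => ⟨he.1, he.2.1⟩
    exact_mod_cast Set.ncard_le_ncard h6 h7
  refine le_trans ?_ h5
  rcases (Nat.cast_nonneg (α := ℝ) ({e ∈ A | H e ≤ X}.ncard)).eq_or_lt with h8 | h8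
  · rw [← h8, mul_zero]
    exact Nat.cast_nonneg _
  · exact ((lt_div_iff₀ h8).1 hX).le

/-- the complement of an event -/
lemma complH {A : Set ℤ} {H : ℤ → ℕ} (hf : ∀ X, {e ∈ A | H e ≤ X}.Finite) (hne : A.Nonempty)
    {P : ℤ → Prop} {l : ℝ} (h : Tendsto (fun X : ℕ => ({e ∈ A | H e ≤ X ∧ P e}.ncard : ℝ) /
      ({e ∈ A | H e ≤ X}.ncard : ℝ)) atTop (𝓝 l)) :
    Tendsto (fun X : ℕ => ({e ∈ A | H e ≤ X ∧ ¬ P e}.ncard : ℝ) /
      ({e ∈ A | H e ≤ X}.ncard : ℝ)) atTop (𝓝 (1 - l)) := by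
  obtain ⟨e, he⟩ := hne
  refine (h.const_sub 1).congr' ?_
  filter_upwards [eventually_ge_atTop (H e)] with X hX
  have hfin := hf X
  have hpos : (0 : ℝ) < ({e ∈ A | H e ≤ X}.ncard : ℝ) := by
    have : 0 < {e ∈ A | H e ≤ X}.ncard := (Set.ncard_pos hfin).2 ⟨e, he, hX⟩
    exact_mod_cast this
  have hsum : ({e ∈ A | H e ≤ X ∧ ¬ P e}.ncard : ℝ) + ({e ∈ A | H e ≤ X ∧ P e}.ncard : ℝ) =
      ({e ∈ A | H e ≤ X}.ncard : ℝ) := by
    have f1 : {e ∈ A | H e ≤ X ∧ ¬ P e}.Finite := hfin.subset fun e he => ⟨he.1, he.2.1⟩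
    have f2 : {e ∈ A | H e ≤ X ∧ P e}.Finite := hfin.subset fun e he => ⟨he.1, he.2.1⟩
    have h1 := Set.ncard_union_eq (s := {e ∈ A | H e ≤ X ∧ ¬ P e})
      (t := {e ∈ A | H e ≤ X ∧ P e}) (by
        rw [Set.disjoint_left]
        rintro x ⟨-, -, h2⟩ ⟨-, -, h3⟩
        exact h2 h3) f1 f2
    have h2 : {e ∈ A | H e ≤ X ∧ ¬ P e} ∪ {e ∈ A | H e ≤ X ∧ P e} = {e ∈ A | H e ≤ X} := by
      ext x
      simp only [Set.mem_union, Set.mem_ofPred_eq]
      tauto
    rw [h2] at h1
    exact_mod_cast h1.symm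
  rw [eq_div_iff hpos.ne', sub_mul, div_mul_cancel₀ _ hpos.ne', one_mul]
  linarith

end proof

/-- **Goldfeld's conjecture over multiquadratic fields: exact joint laws for several representations at
once and base-changed characters with prescribed local components.** -/
theorem result (F : Type) [Field F] [NumberField F] (hF : IsMultiquadratic F) {s t : ℕ}
    (d : Fin s → ℤ) (d' : Fin t → ℤ)
    (hd : ∀ i j, (i ≠ j → ¬ IsSquare ((d i * d j : ℤ) : F)) ∧
      ¬ IsSquare ((-7 * (d i * d j) : ℤ) : F))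
    (hd' : ∀ i j, (i ≠ j → ¬ IsSquare ((d' i * d' j : ℤ) : F)) ∧
      ¬ IsSquare ((-1 * (d' i * d' j) : ℤ) : F) ∧ ¬ IsSquare ((3 * (d' i * d' j) : ℤ) : F) ∧
      ¬ IsSquare ((-3 * (d' i * d' j) : ℤ) : F))
    (S : Finset (HeightOneSpectrum (𝓞 F))) (inf : Prop) (e₀ : ℤ)
    (he₀ : e₀ ∈ Fam F d d' e₀ S inf) :
    (∀ (b : Fin s → Bool) (b' : Fin t → Bool),
      Filter.Tendsto (shareOver F (Fam F d d' e₀ S inf) fun e =>
        (∀ i, (GoodAll F (e * d i) ↔ b i = true)) ∧ ∀ j, (GoodAll' F (e * d' j) ↔ b' j = true))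
        Filter.atTop (nhds (lawOver (Module.finrank ℚ F) b * lawOver (Module.finrank ℚ F) b'))) ∧
    (∀ e ∈ Fam F d d' e₀ S inf,
      (∀ i, GoodAll F (e * d i) → OrderZero (curve F (e * d i)) ∧
        ∀ P : (curve F (e * d i)).toAffine.Point, IsOfFinAddOrder P) ∧
      ∀ j, GoodAll' F (e * d' j) → OrderZero (curve' F (e * d' j)) ∧
        ∀ P : (curve' F (e * d' j)).toAffine.Point, IsOfFinAddOrder P) ∧
    (∀ c : ℝ, c < allOf (s * Module.finrank ℚ F) * allOf (t * Module.finrank ℚ F) →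
      ∀ᶠ X : ℕ in Filter.atTop,
      c * ({e ∈ Fam F d d' e₀ S inf | normConductor F e ≤ X}.ncard : ℝ) ≤
        ({e ∈ Fam F d d' e₀ S inf | normConductor F e ≤ X ∧
          ((∀ i, OrderZero (curve F (e * d i))) ∧
            ∀ j, OrderZero (curve' F (e * d' j)))}.ncard : ℝ)) ∧
    (∀ c : ℝ, c < 1 - (1 + (1 - c₂ ^ Module.finrank ℚ F) ^ s) *
        (1 + (1 - c₂ ^ Module.finrank ℚ F) ^ t) / 4 →
      ∀ᶠ X : ℕ in Filter.atTop,
      c * ({e ∈ Fam F d d' e₀ S inf | normConductor F e ≤ X}.ncard : ℝ) ≤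
        ({e ∈ Fam F d d' e₀ S inf | normConductor F e ≤ X ∧
          ((∃ i, OrderZero (curve F (e * d i))) ∨
            ∃ j, OrderZero (curve' F (e * d' j)))}.ncard : ℝ)) ∧
    0.4194 < c₂ ∧ c₂ < 0.4195 := by
  obtain ⟨σ⟩ := exists_flat hF s
  obtain ⟨τ⟩ := exists_flat hF t
  have hn0 : Module.finrank ℚ F ≠ 0 := Module.finrank_pos.ne'
  have hBF := by
    have _ : IsGalois ℚ F := hF.1.1
    exact Pool.Agent.L0h74.NF.BF_card (F := F) hF.1.2
  have hfin : (Characters F).Finite := hBF.1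
  have hfin' : Finite (Characters F) := hfin.to_subtype
  have hncard : (Characters F).ncard = Module.finrank ℚ F := hBF.2
  have hcard : Nat.card (Characters F) = Module.finrank ℚ F := hBF.2
  have hne1 : Nonempty (Characters F) := ⟨⟨1, one_mem⟩⟩
  set n := Module.finrank ℚ F with hn
  have hr := fun i => root7_iff.1 ((he₀.2.1 1 one_mem).1 i)
  have hr' := fun j => root3_iff.1 ((he₀.2.1 1 one_mem).2 j)
  have hd0 : ∀ i, d i ≠ 0 := fun i h => root7_ne (hr i) (by rw [h]; ring)
  have hd0' : ∀ i, d' i ≠ 0 := fun i h => root3_ne (hr' i) (by rw [h]; ring)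
  set D := flat (Characters F) σ d with hDd
  set D' := flat (Characters F) τ d' with hDd'
  have hD0 : ∀ l, D l ≠ 0 := fun l => mul_ne_zero (hd0 _) (σ l).2.2.1.ne_zero
  have hD0' : ∀ l, D' l ≠ 0 := fun l => mul_ne_zero (hd0' _) (τ l).2.2.1.ne_zero
  have hinj := Pool.Agent.L0h23.XS.diff7 (d := D) (e := e₀)
    ((flat_all σ d fun x => Pool.Agent.L0h86.XF.RP false (e₀ * x)).2 fun m hm i =>
      root7_iff.1 ((he₀.2.1 m hm).1 i))
    (fun l l' hl m => ⟨flat_sq σ hd0 (fun i j hij => (hd i j).1 hij) hl m,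
      flat_ne σ l l' (hd _ _).2 m⟩)
  have hinj' := Pool.Agent.L0h23.XS.diff3 (d := D') hD0'
    (fun l l' hl m => ⟨flat_sq τ hd0' (fun i j hij => (hd' i j).1 hij) hl m,
      by
        have := flat_ne τ l l' (hd' _ _).2.1 m
        rwa [neg_one_mul] at this,
      flat_ne τ l l' (hd' _ _).2.2.1 m, flat_ne τ l l' (hd' _ _).2.2.2 m⟩)
  -- the modulus
  set u : ℕ := 168 * ((∏ v ∈ S, Ideal.absNorm v.asIdeal) * ((∏ l, (D l).natAbs) * ((∏ l, (D' l).natAbs) *
    ∏ m ∈ hfin.toFinset, m.natAbs))) with hu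
  have hu0 : 0 < u := by
    have h1 : 0 < ∏ v ∈ S, Ideal.absNorm v.asIdeal := Finset.prod_pos fun v _ =>
      Nat.pos_of_ne_zero fun h => v.ne_bot (Ideal.absNorm_eq_zero_iff.1 h)
    have h2 : 0 < ∏ l, (D l).natAbs := Finset.prod_pos fun l _ => Int.natAbs_pos.2 (hD0 l)
    have h3 : 0 < ∏ l, (D' l).natAbs := Finset.prod_pos fun l _ => Int.natAbs_pos.2 (hD0' l)
    have h4 : 0 < ∏ m ∈ hfin.toFinset, m.natAbs := Finset.prod_pos fun m hm =>
      Int.natAbs_pos.2 ((Set.Finite.mem_toFinset hfin).1 hm).1.ne_zero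
    positivity
  have h168 : 168 ∣ u := Dvd.intro _ rfl
  have h4 : 4 ∣ u := (by norm_num : 4 ∣ 168).trans h168
  have hpu : ∀ v ∈ S, 4 * Ideal.absNorm v.asIdeal ∣ u := fun v hv =>
    Nat.mul_dvd_mul (by norm_num : 4 ∣ 168) (Dvd.dvd.mul_right (Finset.dvd_prod_of_mem
      (fun v : HeightOneSpectrum (𝓞 F) => Ideal.absNorm v.asIdeal) hv) _)
  have hdu : ∀ l p, p.Prime → p ∣ (D l).natAbs → p ∣ u := fun l p _ hp =>
    Dvd.dvd.mul_left (Dvd.dvd.mul_left (Dvd.dvd.mul_right (hp.trans (Finset.dvd_prod_of_mem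
      (fun l => (D l).natAbs) (Finset.mem_univ l))) _) _) _
  have hdu' : ∀ l p, p.Prime → p ∣ (D' l).natAbs → p ∣ u := fun l p _ hp =>
    Dvd.dvd.mul_left (Dvd.dvd.mul_left (Dvd.dvd.mul_left (Dvd.dvd.mul_right (hp.trans
      (Finset.dvd_prod_of_mem (fun l => (D' l).natAbs) (Finset.mem_univ l))) _) _) _) _
  have hmu : ∀ m ∈ Characters F, m.natAbs ∣ u := fun m hm =>
    Dvd.dvd.mul_left (Dvd.dvd.mul_left (Dvd.dvd.mul_left (Dvd.dvd.mul_left
      (Finset.dvd_prod_of_mem (fun m : ℤ => m.natAbs) ((Set.Finite.mem_toFinset hfin).2 hm)) _) _) _) _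
  -- the family
  set A := Fam F d d' e₀ S inf with hA
  have hAi : ∀ e, e ∈ A ↔ Squarefree e ∧
      ((∀ l, Pool.Agent.L0h86.XF.RP false (e * D l)) ∧
        ∀ l, Pool.Agent.L0h86.XF.RP true (e * D' l)) ∧ Loc F e₀ S inf e := fun e =>
    fam_flat σ τ d d' e₀ S inf e
  have hHf : ∀ X, {e ∈ A | normConductor F e ≤ X}.Finite := fun X =>
    (abs_finite A X).subset fun e he => ⟨he.1, (norm_ge hfin he.1.1.ne_zero).trans he.2⟩
  -- the law on a class
  have hlaw : ∀ (β : Fin s → Bool) (β' : Fin t → Bool), ∀ e₁ ∈ A,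
      Filter.Tendsto (fun Y : ℕ => ({e ∈ A | Pool.Agent.L0h74.AP.key u e =
        Pool.Agent.L0h74.AP.key u e₁ ∧ e.natAbs ≤ Y ∧
          ((∀ i, (GoodAll F (e * d i) ↔ β i = true)) ∧
            ∀ j, (GoodAll' F (e * d' j) ↔ β' j = true))}.ncard : ℝ) /
        ({e ∈ A | Pool.Agent.L0h74.AP.key u e = Pool.Agent.L0h74.AP.key u e₁ ∧
          e.natAbs ≤ Y}.ncard : ℝ)) Filter.atTop (nhds (lawOver n β * lawOver n β')) := by
    intro β β' e₁ he₁
    set pat : ℤ → (Fin (s * n) → Bool) × (Fin (t * n) → Bool) := fun e =>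
      (fun l => decide (Good (e * D l)), fun l => decide (Good' (e * D' l))) with hpat
    have h2 : ∀ B ∈ pats σ β ×ˢ pats τ β', Filter.Tendsto (fun Y : ℕ =>
        ({e ∈ {e ∈ A | Pool.Agent.L0h74.AP.key u e = Pool.Agent.L0h74.AP.key u e₁ ∧
          e.natAbs ≤ Y} | pat e = B}.ncard : ℝ) /
        ({e ∈ A | Pool.Agent.L0h74.AP.key u e = Pool.Agent.L0h74.AP.key u e₁ ∧
          e.natAbs ≤ Y}.ncard : ℝ)) Filter.atTop (nhds (law B.1 * law B.2)) := by
      intro B _
      refine (Pool.Agent.L0h74.GF.law3K D D' hD0 hD0' hinj hinj' hu0 h168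
        (loc_class hu0 e₀ hpu inf) hdu hdu' he₁.1
        ((hAi e₁).1 he₁).2 (Pool.Agent.L0h74.E3.abs_ht u) B.1 B.2).congr fun Y => ?_
      rw [cnt_ncard, cnt_ncard]
      congr 3
      · ext e
        simp only [Set.mem_ofPred_eq]
        rw [hAi]
        constructor
        · rintro ⟨h1, ⟨⟨h2, h3⟩, h5, h6⟩, h7⟩
          refine ⟨⟨⟨h1, h2⟩, h3, h7⟩, Prod.ext (funext fun l => ?_) (funext fun l => ?_)⟩
          · refine Bool.eq_iff_iff.2 ?_
            show decide (Good (e * D l)) = true ↔ _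
            rw [decide_eq_true_iff, good7_iff (h2.1.1 l)]
            exact h5 l
          · refine Bool.eq_iff_iff.2 ?_
            show decide (Good' (e * D' l)) = true ↔ _
            rw [decide_eq_true_iff, good3_iff (h2.1.2 l)]
            exact h6 l
        · rintro ⟨⟨⟨h1, h2⟩, h3, h7⟩, rfl⟩
          refine ⟨h1, ⟨⟨h2, h3⟩, fun l => ?_, fun l => ?_⟩, h7⟩
          · show _ ↔ decide (Good (e * D l)) = true
            rw [decide_eq_true_iff, good7_iff (h2.1.1 l)]
          · show _ ↔ decide (Good' (e * D' l)) = true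
            rw [decide_eq_true_iff, good3_iff (h2.1.2 l)]
      · ext e
        simp only [Set.mem_ofPred_eq]
        rw [hAi]
        tauto
    have h3 := tendsto_finsetSum _ h2
    have h4 : ∑ B ∈ pats σ β ×ˢ pats τ β', law B.1 * law B.2 = lawOver n β * lawOver n β' := by
      rw [Finset.sum_product, ← Finset.sum_mul_sum, sum_law hcard, sum_law hcard]
    rw [h4] at h3
    refine h3.congr fun Y => ?_
    rw [← Finset.sum_div, ← sum_share ((abs_finite A Y).subset fun e he => ⟨he.1, he.2.2⟩)]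
    congr 3
    ext e
    simp only [Set.mem_ofPred_eq]
    have e1 : pat e ∈ pats σ β ×ˢ pats τ β' ↔ ((∀ i, (GoodAll F (e * d i) ↔ β i = true)) ∧
        ∀ j, (GoodAll' F (e * d' j) ↔ β' j = true)) := by
      unfold pats
      rw [Finset.mem_product, Finset.mem_filter, Finset.mem_filter]
      simp only [Finset.mem_univ, true_and, hpat, decide_eq_true_eq]
      refine and_congr (forall_congr' fun i => ?_) (forall_congr' fun j => ?_)
      · have e1 : (∀ m, Good (e * D (σ.symm (i, m)))) ↔ GoodAll F (e * d i) := by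
          rw [hDd]
          unfold flat GoodAll
          simp only [Equiv.apply_symm_apply, mul_assoc]
          exact ⟨fun h m hm => h ⟨m, hm⟩, fun h m => h m m.2⟩
        rw [e1]
      · have e1 : (∀ m, Good' (e * D' (τ.symm (j, m)))) ↔ GoodAll' F (e * d' j) := by
          rw [hDd']
          unfold flat GoodAll'
          simp only [Equiv.apply_symm_apply, mul_assoc]
          exact ⟨fun h m hm => h ⟨m, hm⟩, fun h m => h m m.2⟩
        rw [e1]
    rw [e1]
    tauto
  have key : ∀ (b : Fin s → Bool) (b' : Fin t → Bool),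
      Filter.Tendsto (fun X : ℕ => ({e ∈ A | normConductor F e ≤ X ∧
        ((∀ i, (GoodAll F (e * d i) ↔ b i = true)) ∧
          ∀ j, (GoodAll' F (e * d' j) ↔ b' j = true))}.ncard : ℝ) /
        ({e ∈ A | normConductor F e ≤ X}.ncard : ℝ))
        Filter.atTop (nhds (lawOver n b * lawOver n b')) := fun b b' =>
    Pool.Agent.L0h74.GF.reorder_pow (k := Pool.Agent.L0h74.AP.key u) (key_finite hu0 A)
      (N := Int.natAbs) (abs_finite A) hn0
      (fun e he => ⟨norm_pos hfin he.1.ne_zero, Int.natAbs_pos.2 he.1.ne_zero⟩)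
      (fun e he e' he' h => by
        rw [← hncard]
        exact norm_pow hfin h4 hmu he.1.ne_zero h)
      (hlaw b b') ⟨e₀, he₀⟩
  have hord : ∀ e ∈ A,
      (∀ i, GoodAll F (e * d i) → OrderZero (curve F (e * d i)) ∧
        ∀ P : (curve F (e * d i)).toAffine.Point, IsOfFinAddOrder P) ∧
      ∀ j, GoodAll' F (e * d' j) → OrderZero (curve' F (e * d' j)) ∧
        ∀ P : (curve' F (e * d' j)).toAffine.Point, IsOfFinAddOrder P := by
    intro e he
    constructor
    · intro i hg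
      rw [curve_eq]
      refine over_F hF false (mul_ne_zero he.1.ne_zero (hd0 i)) fun m hm => ?_
      have h3 : RootPlus (e * d i * m) := by
        rw [mul_assoc]
        exact (he.2.1 m hm).1 i
      exact ⟨root7_iff.1 h3, (good7_iff (root7_iff.1 h3)).1 (hg m hm)⟩
    · intro j hg
      rw [curve'_eq]
      refine over_F hF true (mul_ne_zero he.1.ne_zero (hd0' j)) fun m hm => ?_
      have h3 : RootPlus' (e * d' j * m) := by
        rw [mul_assoc]
        exact (he.2.1 m hm).2 j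
      exact ⟨root3_iff.1 h3, (good3_iff (root3_iff.1 h3)).1 (hg m hm)⟩
  refine ⟨key, hord, fun c hc => ?_, fun c hc => ?_, Pool.Agent.Y948.CQ.t_C2.2.2.2.1,
    Pool.Agent.Y948.CQ.t_C2.2.2.2.2⟩
  · have h2 := key (fun _ => true) fun _ => true
    rw [lawOver_true hn0, lawOver_true hn0] at h2
    exact lowerH hHf h2 (fun e he h => ⟨fun i => ((hord e he).1 i ((h.1 i).2 rfl)).1,
      fun j => ((hord e he).2 j ((h.2 j).2 rfl)).1⟩) hc
  · have h2 := complH hHf ⟨e₀, he₀⟩ (key (fun _ => false) fun _ => false)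
    rw [lawOver_false, lawOver_false, show (1 + (1 - c₂ ^ n) ^ s) / 2 * ((1 + (1 - c₂ ^ n) ^ t) / 2) =
      (1 + (1 - c₂ ^ n) ^ s) * (1 + (1 - c₂ ^ n) ^ t) / 4 by ring] at h2
    refine lowerH hHf h2 (fun e he h => ?_) hc
    by_contra hcon
    push Not at hcon
    apply h
    refine ⟨fun i => ⟨fun h2 => absurd ((hord e he).1 i h2).1 (hcon.1 i), fun h2 => ?_⟩,
      fun j => ⟨fun h2 => absurd ((hord e he).2 j h2).1 (hcon.2 j), fun h2 => ?_⟩⟩
    · exact absurd h2 (by simp)
    · exact absurd h2 (by simp)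

end Pool.Agent.Results.MP_50bb2e_nt.MultiquadraticBaseFields
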