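import Pool.Agent.L0h23.XS.Inj
import Pool.Agent.L0h23.XL.Good
import Pool.Agent.L0h74.GF.Fin
import Pool.Agent.Y948.CQ.C2

/-!
# Goldfeld's conjecture for several representations at once: exact joint laws

`F = ℚ`; `π` and `π'` are the representations attached to `X_0(49) : y² + x y = x³ - x² - 2 x - 1` and to
`X_0(36) : y² = x³ + 1` (unitary normalisation, centre `1/2`), and `χ_n` is the primitive quadratic
character of `ℚ(√n)`. We consider any finite number of representations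

`π ⊗ χ_{d_1}, …, π ⊗ χ_{d_s}, π' ⊗ χ_{d'_1}, …, π' ⊗ χ_{d'_t}`,

where the `π ⊗ χ_{d_i}` are pairwise inequivalent (`d_i d_j ∉ {m², -7 m²}`, because `π ⊗ χ_{-7} ≅ π`), and
the `π' ⊗ χ_{d'_j}` are pairwise inequivalent even after a twist by `χ_{-1}`
(`d'_i d'_j ∉ {± m², ± 3 m²}`). `S` is any finite set of primes, with or without the real place, `χ_{e₀}` is
any quadratic character for which all the root numbers of these representations twisted by `χ_{e₀}` are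
`+1`, and `Fam` is the family of all the quadratic characters `χ_e` with this property and the same
local components as `χ_{e₀}` at the places in `S`, ordered by their conductors.

(1) The joint law. Each of the `2^(s+t)` patterns of the events `Good (e d_i)` and `Good' (e d'_j)` has an
exact proportion in the family, the product `law b * law b'`, where
`law b = (1/2) ∏ (c₂ or 1 - c₂)`, plus `1/2` if `b` is all false, `c₂ = ∏_{i ≥ 0} (1 - 2^{-(2i+1)})`. It is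
independent of the representations, of `S` and of the prescribed components.
(2) `Good (e d_i)` implies `ord_{s = 1/2} L(s, π ⊗ χ_{d_i} ⊗ χ_e) = 0` and the finiteness of the group of the
rational points of the twist by `e d_i` of `X_0(49)`, and `Good' (e d'_j)` implies
`ord_{s = 1/2} L(s, π' ⊗ χ_{d'_j} ⊗ χ_e) = 0` and the finiteness for the twist by `e d'_j` of `X_0(36)`.
(3) So for all large `X` all these `s + t` functions are nonzero at the centre for more than `c` times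
the number of the `e` of the family, for each `c < c₂^(s+t) / 4` (if `s, t > 0`; `c₂^s / 2` if `t = 0`, and
`c₂^t / 2` if `s = 0`);
(4) and at least one of them is nonzero at the centre for more than `c` times the number of the `e` of
the family, for each `c < 1 - (1 + (1 - c₂)^s) (1 + (1 - c₂)^t) / 4`, which is as near to `3/4` as one
likes.

Proof. `Pool/Agent/L0h86/XF` (the joint law of the two criteria, helpers 86, 2, 19, 23, 38, 59, 61, 63, 74,
75, 83; it is used there for `Results/MP_696deb_nt/JointLawTwoFields.lean`, with another order and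
residue classes), `Pool/Agent/L0h74/AP` (local conditions and conductors), the values at the centre of
`Pool/Agent/L0h74/GF/X49LC.lean` and `Pool/Agent/L0h23/XL/X36LC.lean` (the cases of one representation,
which are contained in this theorem), and `Pool/Agent/L0h23/XS`.
-/

set_option autoImplicit false

open scoped Classical

namespace Pool.Agent.Results.MP_50bb2e_nt.SimultaneousNonvanishing

/-! ### The two representations and their twists -/

/-- The trace of Frobenius of `X_0(49)` at `p ≠ 7`. -/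
noncomputable def trace (p : ℕ) : ℤ :=
  (p : ℤ) - Nat.card {q : ZMod p × ZMod p //
    q.2 ^ 2 + q.1 * q.2 = q.1 ^ 3 - q.1 ^ 2 - 2 * q.1 - 1}

/-- The trace of Frobenius of `X_0(36)` at `p ≠ 2, 3`. -/
noncomputable def trace' (p : ℕ) : ℤ :=
  (p : ℤ) - Nat.card {q : ZMod p × ZMod p // q.2 ^ 2 = q.1 ^ 3 + 1}

/-- The value at the prime `p` of the primitive quadratic character of `ℚ(√m)`, `m` squarefree. -/
def chi (m : ℤ) (p : ℕ) : ℤ :=
  if p = 2 then (if m % 8 = 1 then 1 else if m % 8 = 5 then -1 else 0) else jacobiSym m p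

/-- The Euler factor at the prime `p` of `L(s, π ⊗ χ_m)`, `m` squarefree, with the centre `s = 1/2`. The
factor at `7` is `1` (the representation is supercuspidal at `7`). -/
noncomputable def eulerFactor (m : ℤ) (s : ℂ) (p : ℕ) : ℂ :=
  if p = 7 then 1 else
    (1 - (trace p : ℂ) * (chi m p : ℂ) * (p : ℂ) ^ (-(s + 1 / 2)) +
      (chi m p : ℂ) ^ 2 * (p : ℂ) ^ (-2 * s))⁻¹

/-- The Euler factor at the prime `p` of `L(s, π' ⊗ χ_m)`, `m` squarefree, with the centre `s = 1/2`. The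
factors at `2` and `3` are `1` (the representation is supercuspidal there). -/
noncomputable def eulerFactor' (m : ℤ) (s : ℂ) (p : ℕ) : ℂ :=
  if p = 2 ∨ p = 3 then 1 else
    (1 - (trace' p : ℂ) * (chi m p : ℂ) * (p : ℂ) ^ (-(s + 1 / 2)) +
      (chi m p : ℂ) ^ 2 * (p : ℂ) ^ (-2 * s))⁻¹

/-- `n = m t²` with `m` squarefree, and an entire function which is the Euler product with the factors
`L m s p` for `Re s > 1` has order zero at `1/2`. -/
def OrderZero (L : ℤ → ℂ → ℕ → ℂ) (n : ℤ) : Prop :=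
  ∃ m t : ℤ, Squarefree m ∧ n = m * t ^ 2 ∧ ∃ F : ℂ → ℂ, Differentiable ℂ F ∧
    (∀ s : ℂ, 1 < s.re → HasProd (fun p : Nat.Primes => L m s p) (F s)) ∧
    analyticOrderAt F (1 / 2) = 0

/-- `n` is `D` or `-q D`, up to squares, `D` squarefree and prime to `q`. -/
def IsCore (q D n : ℤ) : Prop :=
  Squarefree D ∧ ¬ q ∣ D ∧ ∃ t : ℤ, t ≠ 0 ∧ (n = D * t ^ 2 ∨ n = -q * D * t ^ 2)

/-- The condition that the root number of `π ⊗ χ_n` is `+1`. -/
def RootPlus (n : ℤ) : Prop := ∃ D : ℤ, IsCore 7 D n ∧ 0 < D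

/-- The condition that the root number of `π' ⊗ χ_n` is `+1`. -/
def RootPlus' (n : ℤ) : Prop := ∃ D : ℤ, IsCore 3 D n ∧ (|D| % 4 = 1 ∨ (D % 2 = 0 ∧ D < 0))

/-- The quadratic twist by `D` of `X_0(49)`: `y² = x³ - 35 D² x - 98 D³`. -/
def E (D : ℤ) : WeierstrassCurve ℚ :=
  { a₁ := 0, a₂ := 0, a₃ := 0, a₄ := -35 * (D : ℚ) ^ 2, a₆ := -98 * (D : ℚ) ^ 3 }

/-- The quadratic twist by `D` of `X_0(36)`: `y² = x³ + D³`. -/
def E' (D : ℤ) : WeierstrassCurve ℚ := { a₁ := 0, a₂ := 0, a₃ := 0, a₄ := 0, a₆ := (D : ℚ) ^ 3 }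

/-- The curve has finitely many rational points, and `Ш[2] = 0`. -/
def TrivialTwo (W : WeierstrassCurve ℚ) : Prop :=
  Finite W.toAffine.Point ∧ ∀ x : Pool.Agent.TH841.NF.D.Sha W, x + x = 0 → x = 0

/-- The criterion for `π ⊗ χ_n`, `n = D t²` or `-7 D t²`: `E_D(ℚ)` is finite and `Ш(E_D/ℚ)[2] = 0`. -/
def Good (n : ℤ) : Prop := ∃ D : ℤ, IsCore 7 D n ∧ 0 < D ∧ TrivialTwo (E D)

/-- The criterion for `π' ⊗ χ_n`, `n = D t²` or `-3 D t²`: `E'_D(ℚ)` is finite and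
`Ш(E'_D/ℚ)[2] = 0`. -/
def Good' (n : ℤ) : Prop := ∃ D : ℤ, IsCore 3 D n ∧ TrivialTwo (E' D)

/-! ### The family -/

/-- The conductor of `χ_e`, for squarefree `e`. -/
def conductor (e : ℤ) : ℕ := if e % 4 = 1 then e.natAbs else 4 * e.natAbs

/-- The family: the squarefree `e` such that all the root numbers of `π ⊗ χ_{d_i} ⊗ χ_e` and of
`π' ⊗ χ_{d'_j} ⊗ χ_e` are `+1`, and `χ_e` and `χ_{e₀}` have the same component at all the primes in `S`
(that is, `e e₀` is a square in `ℚ_p`), and at the real place if `inf` holds. -/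
def Fam {s t : ℕ} (d : Fin s → ℤ) (d' : Fin t → ℤ) (e₀ : ℤ) (S : Finset ℕ) (inf : Prop) : Set ℤ :=
  {e | Squarefree e ∧ (∀ i, RootPlus (e * d i)) ∧ (∀ j, RootPlus' (e * d' j)) ∧
    (∀ p ∈ S, ∀ _ : Fact p.Prime, IsSquare (((e * e₀ : ℤ) : ℤ) : ℚ_[p])) ∧ (inf → 0 < e * e₀)}

/-- The proportion of the `e` of the family `A` with `Q e` among those with conductor at most `X`. -/
noncomputable def share (A : Set ℤ) (Q : ℤ → Prop) (X : ℕ) : ℝ :=
  ({e ∈ A | conductor e ≤ X ∧ Q e}.ncard : ℝ) / ({e ∈ A | conductor e ≤ X}.ncard : ℝ)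

/-- The constant `0.4194...`. -/
noncomputable def c₂ : ℝ := ∏' i : ℕ, (1 - (1 / 2 : ℝ) ^ (2 * i + 1))

/-- The law of one of the two families of representations. -/
noncomputable def law {k : ℕ} (b : Fin k → Bool) : ℝ :=
  (∏ i, if b i = true then c₂ else 1 - c₂) / 2 + if ∀ i, b i = false then 1 / 2 else 0

/-- The proportion of the joint event for `k` representations of the same kind. -/
noncomputable def allOf (k : ℕ) : ℝ := if k = 0 then 1 else c₂ ^ k / 2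

section proof

open Pool.Agent.L0h86.XF (RP DnF)
open Filter Topology

lemma root7_iff {n : ℤ} : RootPlus n ↔ RP false n := by
  rw [← Pool.Agent.L0h86.XF.plusA_iff]
  unfold RootPlus IsCore Pool.Agent.L0h86.XF.PlusA
  constructor
  · rintro ⟨D, ⟨h1, h2, t, h3, h4⟩, h5⟩
    exact ⟨D, t, h5, h1, h2, h3, h4⟩
  · rintro ⟨D, t, h5, h1, h2, h3, h4⟩
    exact ⟨D, ⟨h1, h2, t, h3, h4⟩, h5⟩

lemma root3_iff {n : ℤ} : RootPlus' n ↔ RP true n := by
  show RootPlus' n ↔ Pool.Agent.L0h74.E3.RootPlus n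
  rw [Pool.Agent.L0h23.XL.root_iff]
  unfold RootPlus' IsCore
  constructor
  · rintro ⟨D, ⟨h1, h2, t, h3, h4⟩, h5⟩
    refine ⟨D, t, h3, h1, h2, h4, ?_⟩
    rw [Int.abs_eq_natAbs] at h5
    rcases h5 with h5 | h5
    · exact Or.inl (by omega)
    · exact Or.inr h5
  · rintro ⟨D, t, h3, h1, h2, h4, h5⟩
    refine ⟨D, ⟨h1, h2, t, h3, h4⟩, ?_⟩
    rw [Int.abs_eq_natAbs]
    rcases h5 with h5 | h5
    · exact Or.inl (by omega)
    · exact Or.inr h5

lemma root3_ne {n : ℤ} (hn : RP true n) : n ≠ 0 := hn.1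

lemma root7_ne {n : ℤ} (hn : RP false n) : n ≠ 0 := by
  rcases hn with h | h
  · exact h.1.ne'
  · exact h.1.ne

lemma good3_iff {n : ℤ} (hn : RP true n) : Good' n ↔ Pool.Agent.L0h86.XF.Good true (DnF true n) := by
  show Good' n ↔ Pool.Agent.L0h74.E3.Cr (Pool.Agent.L0h74.E3.Dn n)
  rw [← Pool.Agent.L0h23.XL.good_iff hn]
  constructor
  · rintro ⟨D, ⟨h1, h2, t, h3, h4⟩, h5⟩
    exact ⟨D, t, h1, h2, h4, h5⟩
  · rintro ⟨D, t, h1, h2, h3, h4⟩
    refine ⟨D, ⟨h1, h2, t, ?_, h3⟩, h4⟩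
    rintro rfl
    apply root3_ne hn
    rcases h3 with h | h
    · rw [h]
      ring
    · rw [h]
      ring

/-- the core of a number is unique -/
lemma core7 {n D : ℤ} (h0 : 0 < D) (h : IsCore 7 D n) :
    D = (Pool.Agent.L0h74.AP.Dn n : ℤ) := by
  obtain ⟨h1, h2, t, h3, h4⟩ := h
  obtain ⟨M, rfl⟩ : ∃ M : ℕ, D = M := ⟨D.toNat, (Int.toNat_of_nonneg h0.le).symm⟩
  have h5 : Squarefree M := Int.squarefree_natCast.1 h1
  have h6 : ¬ 7 ∣ M := fun h => h2 (by exact_mod_cast h)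
  rw [Pool.Agent.L0h74.GF.Dn_unique h5 h6 h3 h4]

lemma E_S7 (D : ℤ) : TrivialTwo (E D) ↔ Pool.Agent.L0h1.CM.TT2 (Pool.Agent.L0h1.CM.S7 (D : ℚ)) :=
  Iff.rfl

lemma good7_iff {n : ℤ} (hn : RP false n) :
    Good n ↔ Pool.Agent.L0h86.XF.Good false (DnF false n) := by
  obtain ⟨D, hD, hD0⟩ := root7_iff.2 hn
  have hDn := core7 hD0 hD
  have hRD : RP false D := root7_iff.1 ⟨D, ⟨hD.1, hD.2.1, 1, one_ne_zero, Or.inl (by ring)⟩, hD0⟩
  have hDD := core7 hD0 (n := D) ⟨hD.1, hD.2.1, 1, one_ne_zero, Or.inl (by ring)⟩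
  have key : TrivialTwo (E D) ↔ Pool.Agent.L0h86.XF.Good false (DnF false n) := by
    have h1 := Pool.Agent.L0h86.XF.tt_cv (f := false) hRD
    have h2 : DnF false D = DnF false n := by
      show Pool.Agent.L0h74.AP.Dn D = Pool.Agent.L0h74.AP.Dn n
      have : ((Pool.Agent.L0h74.AP.Dn D : ℕ) : ℤ) = (Pool.Agent.L0h74.AP.Dn n : ℕ) := by
        rw [← hDD, ← hDn]
      exact_mod_cast this
    rw [h2] at h1
    exact h1
  rw [← key]
  constructor
  · rintro ⟨D', h1, h2, h3⟩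
    have := core7 h2 h1
    rw [← hDn] at this
    rwa [this] at h3
  · intro h
    exact ⟨D, hD, hD0, h⟩

lemma order7 {n : ℤ} (hn : RP false n) (h : Good n) : OrderZero eulerFactor n ∧
    {q : ℚ × ℚ | q.2 ^ 2 = q.1 ^ 3 - 35 * (n : ℚ) ^ 2 * q.1 - 98 * (n : ℚ) ^ 3}.Finite := by
  obtain ⟨w, hw⟩ := Pool.Agent.L0h4.TA.exists_w
  have hq := Pool.Agent.L0h74.EV.qpw_of hw
  have hn' : Pool.Agent.L0h74.AP.RootPlus n := hn
  obtain ⟨t, m, ht, h1, h2⟩ := Pool.Agent.L0h74.AP.root_decomp hn'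
  have hsf := Pool.Agent.L0h74.AP.Dn_sq n
  have h7 := Pool.Agent.L0h74.AP.Dn_seven n
  obtain ⟨h3, h4⟩ := Pool.Agent.L0h74.GF.good hq hsf h7 ((good7_iff hn).1 h) h2
  have hsq : Squarefree m := by
    have h5 : Squarefree ((Pool.Agent.L0h74.AP.Dn n : ℕ) : ℤ) := Int.squarefree_natCast.2 hsf
    rcases h2 with h2 | h2
    · rw [h2]
      exact h5
    · rw [h2, ← Int.squarefree_natAbs, Int.natAbs_mul, Int.natAbs_natCast,
        show Int.natAbs (-7) = 7 from rfl, Nat.squarefree_mul_iff]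
      exact ⟨(Nat.Prime.coprime_iff_not_dvd (by norm_num)).2 h7,
        (by norm_num : Nat.Prime 7).prime.squarefree, hsf⟩
  obtain ⟨F, g1, g2, g3⟩ := h3
  have hd : Differentiable ℂ fun s => F (s + 1 / 2) := g1.comp (differentiable_id.add_const _)
  have h6 := Pool.Agent.L0h74.GF.fin_scale ht h4
  rw [← h1] at h6
  refine ⟨⟨m, t, hsq, h1, fun s => F (s + 1 / 2), hd, fun s hs => ?_, ?_⟩, h6⟩
  · have h4 := g2 (s + 1 / 2) (by
      rw [Complex.add_re]
      norm_num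
      linarith)
    refine (congrArg (fun g => HasProd g (F (s + 1 / 2))) (funext fun p : Nat.Primes => ?_)).mp h4
    unfold Pool.Agent.L0h74.GF.lf eulerFactor
    by_cases h7 : (p : ℕ) = 7
    · rw [if_pos h7, if_pos h7]
    · rw [if_neg h7, if_neg h7, show (1 - 2 * (s + 1 / 2) : ℂ) = -2 * s by ring]
      rfl
  · rw [(hd.analyticAt (1 / 2)).analyticOrderAt_eq_zero]
    show F (1 / 2 + 1 / 2) ≠ 0
    rw [show (1 / 2 + 1 / 2 : ℂ) = 1 by norm_num]
    exact g3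

lemma order3 {n : ℤ} (hn : RP true n) (h : Good' n) : OrderZero eulerFactor' n ∧
    {q : ℚ × ℚ | q.2 ^ 2 = q.1 ^ 3 + (n : ℚ) ^ 3}.Finite := by
  obtain ⟨⟨m, t, h1, h2, F, g1, g2, g3⟩, g4⟩ :=
    Pool.Agent.L0h23.XL.good_order hn ((good3_iff hn).1 h)
  have hd : Differentiable ℂ fun s => F (s + 1 / 2) := g1.comp (differentiable_id.add_const _)
  refine ⟨⟨m, t, h1, h2, fun s => F (s + 1 / 2), hd, fun s hs => ?_, ?_⟩, g4⟩
  · have h4 := g2 (s + 1 / 2) (by
      rw [Complex.add_re]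
      norm_num
      linarith)
    refine (congrArg (fun g => HasProd g (F (s + 1 / 2))) (funext fun p : Nat.Primes => ?_)).mp h4
    unfold Pool.Agent.L0h23.XL.lf eulerFactor'
    by_cases h7 : (p : ℕ) = 2 ∨ (p : ℕ) = 3
    · rw [if_pos h7, if_pos h7]
    · have h2 : (p : ℕ) ≠ 2 := fun h => h7 (Or.inl h)
      rw [if_neg h7, if_neg h7, show (1 - 2 * (s + 1 / 2) : ℂ) = -2 * s by ring]
      unfold chi
      rw [if_neg h2]
      rfl
  · rw [(hd.analyticAt (1 / 2)).analyticOrderAt_eq_zero]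
    show F (1 / 2 + 1 / 2) ≠ 0
    rw [show (1 / 2 + 1 / 2 : ℂ) = 1 by norm_num]
    exact g3

lemma conductor_finite (A : Set ℤ) (X : ℕ) : {e ∈ A | conductor e ≤ X}.Finite := by
  refine (Set.finite_Icc (-(X : ℤ)) X).subset ?_
  rintro e ⟨-, h⟩
  have h1 : e.natAbs ≤ X := by
    unfold conductor at h
    split_ifs at h
    · exact h
    · omega
  rw [Set.mem_Icc]
  omega

/-- the family in the internal form -/
lemma fam_iff {s t : ℕ} (d : Fin s → ℤ) (d' : Fin t → ℤ) (e₀ : ℤ) (S : Finset ℕ) (inf : Prop)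
    (e : ℤ) : e ∈ Fam d d' e₀ S inf ↔
      Squarefree e ∧ Pool.Agent.L0h23.XS.F3 d d' e₀ S inf e := by
  unfold Fam Pool.Agent.L0h23.XS.F3 Pool.Agent.L0h23.XS.Lc
  rw [Set.mem_ofPred_eq]
  simp only [root7_iff, root3_iff]
  tauto

lemma share_eq {s t : ℕ} (d : Fin s → ℤ) (d' : Fin t → ℤ) (e₀ : ℤ) (S : Finset ℕ) (inf : Prop)
    (b : Fin s → Bool) (b' : Fin t → Bool) (X : ℕ) :
    share (Fam d d' e₀ S inf) (fun e => (∀ i, (Good (e * d i) ↔ b i = true)) ∧
      ∀ j, (Good' (e * d' j) ↔ b' j = true)) X =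
      ((Pool.Agent.L0h74.AP.cnt Pool.Agent.L0h74.AP.cnd (fun e =>
        Pool.Agent.L0h23.XS.F3 d d' e₀ S inf e ∧
        (∀ i, (Pool.Agent.L0h86.XF.Good false (DnF false (e * d i)) ↔ b i = true)) ∧
          ∀ j, (Pool.Agent.L0h86.XF.Good true (DnF true (e * d' j)) ↔ b' j = true)) X : ℕ) : ℝ) /
      ((Pool.Agent.L0h74.AP.cnt Pool.Agent.L0h74.AP.cnd
        (Pool.Agent.L0h23.XS.F3 d d' e₀ S inf) X : ℕ) : ℝ) := by
  unfold share
  rw [Pool.Agent.L0h74.GF.cnt_ncard, Pool.Agent.L0h74.GF.cnt_ncard]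
  have e1 : {e ∈ Fam d d' e₀ S inf | conductor e ≤ X} =
      {e : ℤ | Squarefree e ∧ Pool.Agent.L0h23.XS.F3 d d' e₀ S inf e ∧
        Pool.Agent.L0h74.AP.cnd e ≤ X} := by
    ext e
    rw [Set.mem_ofPred_eq, Set.mem_ofPred_eq, fam_iff]
    exact and_assoc
  have e2 : {e ∈ Fam d d' e₀ S inf | conductor e ≤ X ∧
      ((∀ i, (Good (e * d i) ↔ b i = true)) ∧ ∀ j, (Good' (e * d' j) ↔ b' j = true))} =
      {e : ℤ | Squarefree e ∧ (Pool.Agent.L0h23.XS.F3 d d' e₀ S inf e ∧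
        (∀ i, (Pool.Agent.L0h86.XF.Good false (DnF false (e * d i)) ↔ b i = true)) ∧
          ∀ j, (Pool.Agent.L0h86.XF.Good true (DnF true (e * d' j)) ↔ b' j = true)) ∧
        Pool.Agent.L0h74.AP.cnd e ≤ X} := by
    ext e
    rw [Set.mem_ofPred_eq, Set.mem_ofPred_eq, fam_iff]
    constructor
    · rintro ⟨⟨h1, h2⟩, h3, h4, h5⟩
      refine ⟨h1, ⟨h2, fun i => ?_, fun j => ?_⟩, h3⟩
      · rw [← good7_iff (h2.1.1 i)]
        exact h4 i
      · rw [← good3_iff (h2.1.2 j)]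
        exact h5 j
    · rintro ⟨h1, ⟨h2, h4, h5⟩, h3⟩
      refine ⟨⟨h1, h2⟩, h3, fun i => ?_, fun j => ?_⟩
      · rw [good7_iff (h2.1.1 i)]
        exact h4 i
      · rw [good3_iff (h2.1.2 j)]
        exact h5 j
  rw [e1, e2]

/-- lower bounds -/
lemma lower {A : Set ℤ} {P Q : ℤ → Prop} {l c : ℝ} (h : Tendsto (share A P) atTop (𝓝 l))
    (hPQ : ∀ e ∈ A, P e → Q e) (hc : c < l) :
    ∀ᶠ X : ℕ in atTop, c * ({e ∈ A | conductor e ≤ X}.ncard : ℝ) ≤
      ({e ∈ A | conductor e ≤ X ∧ Q e}.ncard : ℝ) := by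
  filter_upwards [h.eventually (lt_mem_nhds hc)] with X hX
  have h5 : ({e ∈ A | conductor e ≤ X ∧ P e}.ncard : ℝ) ≤
      ({e ∈ A | conductor e ≤ X ∧ Q e}.ncard : ℝ) := by
    have h6 : {e ∈ A | conductor e ≤ X ∧ P e} ⊆ {e ∈ A | conductor e ≤ X ∧ Q e} :=
      fun e he => ⟨he.1, he.2.1, hPQ e he.1 he.2.2⟩
    have h7 : {e ∈ A | conductor e ≤ X ∧ Q e}.Finite :=
      (conductor_finite A X).subset fun e he => ⟨he.1, he.2.1⟩
    exact_mod_cast Set.ncard_le_ncard h6 h7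
  refine le_trans ?_ h5
  rcases (Nat.cast_nonneg (α := ℝ) ({e ∈ A | conductor e ≤ X}.ncard)).eq_or_lt with h8 | h8
  · rw [← h8, mul_zero]
    exact Nat.cast_nonneg _
  · exact ((lt_div_iff₀ h8).1 hX).le

/-- the complement of an event -/
lemma compl_of {A : Set ℤ} (hne : A.Nonempty) {P : ℤ → Prop} {l : ℝ}
    (h : Tendsto (share A P) atTop (𝓝 l)) :
    Tendsto (share A fun e => ¬ P e) atTop (𝓝 (1 - l)) := by
  obtain ⟨e, he⟩ := hne
  refine (h.const_sub 1).congr' ?_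
  filter_upwards [eventually_ge_atTop (conductor e)] with X hX
  have hfin := conductor_finite A X
  have hpos : (0 : ℝ) < ({e ∈ A | conductor e ≤ X}.ncard : ℝ) := by
    have : 0 < {e ∈ A | conductor e ≤ X}.ncard := (Set.ncard_pos hfin).2 ⟨e, he, hX⟩
    exact_mod_cast this
  have hsum : ({e ∈ A | conductor e ≤ X ∧ ¬ P e}.ncard : ℝ) +
      ({e ∈ A | conductor e ≤ X ∧ P e}.ncard : ℝ) = ({e ∈ A | conductor e ≤ X}.ncard : ℝ) := by
    have f1 : {e ∈ A | conductor e ≤ X ∧ ¬ P e}.Finite :=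
      hfin.subset fun e he => ⟨he.1, he.2.1⟩
    have f2 : {e ∈ A | conductor e ≤ X ∧ P e}.Finite :=
      hfin.subset fun e he => ⟨he.1, he.2.1⟩
    have h1 := Set.ncard_union_eq (s := {e ∈ A | conductor e ≤ X ∧ ¬ P e})
      (t := {e ∈ A | conductor e ≤ X ∧ P e}) (by
        rw [Set.disjoint_left]
        rintro x ⟨-, -, h2⟩ ⟨-, -, h3⟩
        exact h2 h3) f1 f2
    have h2 : {e ∈ A | conductor e ≤ X ∧ ¬ P e} ∪ {e ∈ A | conductor e ≤ X ∧ P e} =
        {e ∈ A | conductor e ≤ X} := by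
      ext x
      simp only [Set.mem_union, Set.mem_ofPred_eq]
      tauto
    rw [h2] at h1
    exact_mod_cast h1.symm
  unfold share
  rw [eq_div_iff hpos.ne', sub_mul, div_mul_cancel₀ _ hpos.ne', one_mul]
  linarith

end proof

/-- **Exact joint laws for the central values of several representations and their quadratic twists
with prescribed local components.** -/
theorem result {s t : ℕ} (d : Fin s → ℤ) (d' : Fin t → ℤ)
    (hd : ∀ i j, i ≠ j → ∀ m : ℤ, d i * d j ≠ m ^ 2 ∧ d i * d j ≠ -7 * m ^ 2)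
    (hd' : ∀ i j, i ≠ j → ∀ m : ℤ, d' i * d' j ≠ m ^ 2 ∧ d' i * d' j ≠ -m ^ 2 ∧
      d' i * d' j ≠ 3 * m ^ 2 ∧ d' i * d' j ≠ -3 * m ^ 2)
    (S : Finset ℕ) (hS : ∀ p ∈ S, p.Prime) (inf : Prop) (e₀ : ℤ) (he₀ : Squarefree e₀)
    (h₀ : ∀ i, RootPlus (e₀ * d i)) (h₀' : ∀ j, RootPlus' (e₀ * d' j)) :
    (∀ (b : Fin s → Bool) (b' : Fin t → Bool), Filter.Tendsto (share (Fam d d' e₀ S inf) fun e =>
      (∀ i, (Good (e * d i) ↔ b i = true)) ∧ ∀ j, (Good' (e * d' j) ↔ b' j = true))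
        Filter.atTop (nhds (law b * law b'))) ∧
    (∀ e ∈ Fam d d' e₀ S inf, (∀ i, Good (e * d i) → OrderZero eulerFactor (e * d i) ∧
        {q : ℚ × ℚ | q.2 ^ 2 = q.1 ^ 3 - 35 * ((e * d i : ℤ) : ℚ) ^ 2 * q.1 -
          98 * ((e * d i : ℤ) : ℚ) ^ 3}.Finite) ∧
      ∀ j, Good' (e * d' j) → OrderZero eulerFactor' (e * d' j) ∧
        {q : ℚ × ℚ | q.2 ^ 2 = q.1 ^ 3 + ((e * d' j : ℤ) : ℚ) ^ 3}.Finite) ∧
    (∀ c : ℝ, c < allOf s * allOf t → ∀ᶠ X : ℕ in Filter.atTop,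
      c * ({e ∈ Fam d d' e₀ S inf | conductor e ≤ X}.ncard : ℝ) ≤
        ({e ∈ Fam d d' e₀ S inf | conductor e ≤ X ∧ ((∀ i, OrderZero eulerFactor (e * d i)) ∧
          ∀ j, OrderZero eulerFactor' (e * d' j))}.ncard : ℝ)) ∧
    (∀ c : ℝ, c < 1 - (1 + (1 - c₂) ^ s) * (1 + (1 - c₂) ^ t) / 4 →
      ∀ᶠ X : ℕ in Filter.atTop,
      c * ({e ∈ Fam d d' e₀ S inf | conductor e ≤ X}.ncard : ℝ) ≤
        ({e ∈ Fam d d' e₀ S inf | conductor e ≤ X ∧ ((∃ i, OrderZero eulerFactor (e * d i)) ∨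
          ∃ j, OrderZero eulerFactor' (e * d' j))}.ncard : ℝ)) ∧
    0.4194 < c₂ ∧ c₂ < 0.4195 := by
  have hd0' : ∀ j, d' j ≠ 0 := fun j =>
    right_ne_zero_of_mul (root3_ne (root3_iff.1 (h₀' j)))
  have hd0 : ∀ i, d i ≠ 0 := fun i =>
    right_ne_zero_of_mul (root7_ne (root7_iff.1 (h₀ i)))
  have key : ∀ (b : Fin s → Bool) (b' : Fin t → Bool),
      Filter.Tendsto (share (Fam d d' e₀ S inf) fun e =>
      (∀ i, (Good (e * d i) ↔ b i = true)) ∧ ∀ j, (Good' (e * d' j) ↔ b' j = true))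
        Filter.atTop (nhds (law b * law b')) := by
    intro b b'
    refine (Pool.Agent.L0h23.XS.law3 d d' hd0 hd0'
      (Pool.Agent.L0h23.XS.diff7 (e := e₀) (fun i => root7_iff.1 (h₀ i)) hd)
      (Pool.Agent.L0h23.XS.diff3 hd0' hd') hS inf he₀ (fun i => root7_iff.1 (h₀ i))
      (fun j => root3_iff.1 (h₀' j)) (fun u h4 => Pool.Agent.L0h74.AP.cnd_ht h4) b b').congr
      fun X => ?_
    exact (share_eq d d' e₀ S inf b b' X).symm
  have hne : (Fam d d' e₀ S inf).Nonempty := by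
    refine ⟨e₀, he₀, h₀, h₀', fun p _ _ => ⟨(e₀ : ℚ_[p]), by push_cast; ring⟩, fun _ => ?_⟩
    exact mul_self_pos.2 he₀.ne_zero
  have hord : ∀ e ∈ Fam d d' e₀ S inf, (∀ i, Good (e * d i) → OrderZero eulerFactor (e * d i) ∧
        {q : ℚ × ℚ | q.2 ^ 2 = q.1 ^ 3 - 35 * ((e * d i : ℤ) : ℚ) ^ 2 * q.1 -
          98 * ((e * d i : ℤ) : ℚ) ^ 3}.Finite) ∧
      ∀ j, Good' (e * d' j) → OrderZero eulerFactor' (e * d' j) ∧
        {q : ℚ × ℚ | q.2 ^ 2 = q.1 ^ 3 + ((e * d' j : ℤ) : ℚ) ^ 3}.Finite := fun e he =>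
    ⟨fun i h => order7 (root7_iff.1 (he.2.1 i)) h, fun j h => order3 (root3_iff.1 (he.2.2.1 j)) h⟩
  refine ⟨key, hord, fun c hc => ?_, fun c hc => ?_, Pool.Agent.Y948.CQ.t_C2.2.2.2.1,
    Pool.Agent.Y948.CQ.t_C2.2.2.2.2⟩
  · have h1 := key (fun _ => true) fun _ => true
    have e1 : law (fun _ : Fin s => true) = allOf s := Pool.Agent.L0h23.XS.L1_true
    have e2 : law (fun _ : Fin t => true) = allOf t := Pool.Agent.L0h23.XS.L1_true
    rw [e1, e2] at h1
    exact lower h1 (fun e he h => ⟨fun i => ((hord e he).1 i ((h.1 i).2 rfl)).1,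
      fun j => ((hord e he).2 j ((h.2 j).2 rfl)).1⟩) hc
  · have h1 := compl_of hne (key (fun _ => false) fun _ => false)
    have e1 : law (fun _ : Fin s => false) = (1 + (1 - c₂) ^ s) / 2 :=
      Pool.Agent.L0h23.XS.L1_false
    have e2 : law (fun _ : Fin t => false) = (1 + (1 - c₂) ^ t) / 2 :=
      Pool.Agent.L0h23.XS.L1_false
    rw [e1, e2, show (1 + (1 - c₂) ^ s) / 2 * ((1 + (1 - c₂) ^ t) / 2) =
      (1 + (1 - c₂) ^ s) * (1 + (1 - c₂) ^ t) / 4 by ring] at h1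
    refine lower h1 (fun e he h => ?_) hc
    by_contra hcon
    push Not at hcon
    apply h
    refine ⟨fun i => ⟨fun h2 => absurd ((hord e he).1 i h2).1 (hcon.1 i), fun h2 => ?_⟩,
      fun j => ⟨fun h2 => absurd ((hord e he).2 j h2).1 (hcon.2 j), fun h2 => ?_⟩⟩
    · exact absurd h2 (by simp)
    · exact absurd h2 (by simp)

end Pool.Agent.Results.MP_50bb2e_nt.SimultaneousNonvanishing
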