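import Pool.Agent.L0h1.GT.Fin

/-!
# One infinite tower of base fields for all the good twists of two representations

`π` and `π'` are the representations attached to `X_0(49)` and to `X_0(36)`, and `χ_n` is the quadratic
character of `ℚ(√n)`, `n` squarefree. For a number field `K` the `L`-function of the twist
`π_K ⊗ (χ_n ∘ N_{K/ℚ})` of the base change `π_K` is the Hasse–Weil `L`-function of the curve
`E_n : y² = x³ - 35 n² x - 98 n³` over `K`, and for `π'` it is the one of `y² = x³ + n³`, with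
`s = 1` in the place of the centre `s = 1/2` (this identification is not formalised). Both are
called `curve K g n` here, with `g = false` and `g = true`.

(0) Among the squarefree `n` with root number `+1` over `ℚ` (`RootPlus g n`), in any residue class and with
any condition on the sign, the `n` with `TrivialTwo g n` (the group `E_n(ℚ)` is finite and
`Ш(E_n/ℚ)[2] = 0`) have the exact proportion `c₂ / 2 = 0.2097...`.

(1) *One tower for all of them, and for both representations.* Let `m` be a multiple of `84` and let `r` be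
prime to `m` and `1` modulo `84`. There is one sequence `D_0, D_1, D_2, ...` of squarefree numbers
greater than `1`, congruent to `r` modulo `m` and pairwise coprime, with the following property. For
`g = false` and `g = true` and for **all** the `n` of (0) there is a `j` such that for every number field
`K` which can be embedded into `ℚ(√-p, √D_j, √D_{j+1}, ...)` (`p = 7` or `3`) the order of vanishing of
`L(E_n/K, s)` at `s = 1` is zero, and the group `E_n(K)` is torsion; for instance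
`K = ℚ(√D_j, ..., √D_{j+k-1})`, a totally real field of degree `2^k` in which all the primes dividing `m`
are split completely, if `r = 1` and `8` divides `m`. Also all the twists `E_{nP}`, `P` a product of different `D_i`,
`i ≥ j`, are good again. The `j` is explicit: it can be taken as `|n|`, and as `0` for finitely many `n` given
in advance.

For finitely many `n` given in advance the towers are those of
`Results/MP_413b36_nt/GenericTowers.lean` (helper2). Proof: the joint law of any number of twists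
(`Pool/Agent/L0h86/XF`, see `Results/MP_696deb_nt/JointLawTwoFields.lean`) for larger and larger finite sets of
twists, `Pool/Agent/L0h1/GT/{Core,Fin}.lean`, and the passage to number fields of helper2
(`Pool/Agent/L0h2/XP/FLD.lean`) and helper74 (`Pool/Agent/L0h74/NF`).
-/

set_option autoImplicit false

open scoped Classical
open NumberField IntermediateField Filter Topology

namespace Pool.Agent.Results.MP_50bb2e_nt.UniversalTower

/-! ### The order of vanishing over number fields -/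

/-- `M P` is an equation of `E` over the integers which is minimal at the prime ideal `P`, for all `P`. -/
def IsMinimal {K : Type} [Field K] [NumberField K] (E : WeierstrassCurve K)
    (M : {P : Ideal (𝓞 K) // P.IsPrime ∧ P ≠ ⊥} → WeierstrassCurve (𝓞 K)) : Prop :=
  ∀ P, (∃ C : WeierstrassCurve.VariableChange K, C • E = (M P).map (algebraMap (𝓞 K) K)) ∧
      ∀ W : WeierstrassCurve (𝓞 K),
        (∃ C : WeierstrassCurve.VariableChange K, C • E = W.map (algebraMap (𝓞 K) K)) →
        ∀ n : ℕ, (M P).Δ ∈ P.1 ^ n → W.Δ ∈ P.1 ^ n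

/-- The Euler factor of the Hasse–Weil `L`-function at the prime ideal `P`. -/
noncomputable def eulerFactor {K : Type} [Field K] [NumberField K]
    (M : {P : Ideal (𝓞 K) // P.IsPrime ∧ P ≠ ⊥} → WeierstrassCurve (𝓞 K)) (s : ℂ)
    (P : {P : Ideal (𝓞 K) // P.IsPrime ∧ P ≠ ⊥}) : ℂ :=
  (1 - ((Nat.card (𝓞 K ⧸ P.1) : ℂ)
               - (Nat.card {xy : (𝓞 K ⧸ P.1) × (𝓞 K ⧸ P.1) //
                   ((M P).map (Ideal.Quotient.mk P.1)).toAffine.Equation xy.1 xy.2} : ℂ))
             * (Nat.card (𝓞 K ⧸ P.1) : ℂ) ^ (-s)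
           + (if (M P).Δ ∈ P.1 then 0 else (Nat.card (𝓞 K ⧸ P.1) : ℂ) ^ (1 - 2 * s)))⁻¹

/-- All the points of `E(K)` have finite order and `E(K)` has rank zero; there are families of minimal
equations; for each of them, the Hasse–Weil `L`-function, which converges for `Re s > 3/2`, has an
analytic continuation to a connected open set with `Re s > 3/2` and `s = 1`, and the order at `s = 1` of
each such continuation is zero. -/
def OrderRankZero (K : Type) [Field K] [NumberField K] (E : WeierstrassCurve K) : Prop :=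
  (∀ P : E.toAffine.Point, IsOfFinAddOrder P) ∧ Module.finrank ℤ E.toAffine.Point = 0 ∧
  (∃ M : {P : Ideal (𝓞 K) // P.IsPrime ∧ P ≠ ⊥} → WeierstrassCurve (𝓞 K), IsMinimal E M) ∧
  ∀ M : {P : Ideal (𝓞 K) // P.IsPrime ∧ P ≠ ⊥} → WeierstrassCurve (𝓞 K), IsMinimal E M →
    (∃ (U : Set ℂ) (f : ℂ → ℂ), IsOpen U ∧ IsConnected U ∧ (1 : ℂ) ∈ U ∧
      {s : ℂ | 3 / 2 < s.re} ⊆ U ∧ AnalyticOnNhd ℂ f U ∧
      ∀ s : ℂ, 3 / 2 < s.re → HasProd (fun P => eulerFactor M s P) (f s)) ∧
    ∀ (U : Set ℂ) (f : ℂ → ℂ), IsOpen U → IsConnected U → (1 : ℂ) ∈ U →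
      {s : ℂ | 3 / 2 < s.re} ⊆ U → AnalyticOnNhd ℂ f U →
      (∀ s : ℂ, 3 / 2 < s.re → f s = ∏' P, eulerFactor M s P) → analyticOrderAt f 1 = 0

/-! ### The curves -/

/-- The quadratic twist by `n` of `X_0(49)` (`g = false`) or of `X_0(36)` (`g = true`), over `K`: the curve
`y² = x³ - 35 n² x - 98 n³`, or `y² = x³ + n³`. -/
def curve (K : Type) [Field K] (g : Bool) (n : ℤ) : WeierstrassCurve K :=
  if g = true then { a₁ := 0, a₂ := 0, a₃ := 0, a₄ := 0, a₆ := (n : K) ^ 3 }
  else { a₁ := 0, a₂ := 0, a₃ := 0, a₄ := -35 * (n : K) ^ 2, a₆ := -98 * (n : K) ^ 3 }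

/-- The prime which is ramified in the field of the complex multiplications: `7`, or `3`. -/
def ram (g : Bool) : ℕ := if g = true then 3 else 7

/-- `n`, if `p` does not divide `n`, and `-n / p`, if `p` divides `n` (`p = 7`, or `3`). -/
def red (g : Bool) (n : ℤ) : ℤ := if (ram g : ℤ) ∣ n then -(n / (ram g : ℤ)) else n

/-- With `n' = red g n`: `n' > 0` for the twists of `X_0(49)`, and `|n'| ≡ 1` modulo `4`, or `n'` even and
negative, for the twists of `X_0(36)`; by the known formulas this means that the root number of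
`π ⊗ χ_n`, or `π' ⊗ χ_n`, over `ℚ` is `+1` (`n` squarefree). -/
def RootPlus (g : Bool) (n : ℤ) : Prop :=
  if g = true then (red g n).natAbs % 4 = 1 ∨ red g n % 2 = 0 ∧ red g n < 0 else 0 < red g n

/-- `E_n(ℚ)` is finite and `Ш(E_n/ℚ)[2] = 0`. -/
def TrivialTwo (g : Bool) (n : ℤ) : Prop :=
  Finite (curve ℚ g n).toAffine.Point ∧
    ∀ x : Pool.Agent.TH841.NF.D.Sha (curve ℚ g n), x + x = 0 → x = 0

/-! ### The proportion -/

/-- The squarefree `n` with `RootPlus g n`, congruent to `r` modulo `q`, with the sign in `σ`. -/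
def Class (g : Bool) (q : ℕ) (r : ℤ) (σ : Set ℤ) (n : ℤ) : Prop :=
  Squarefree n ∧ RootPlus g n ∧ n ≡ r [ZMOD (q : ℤ)] ∧ n.sign ∈ σ

/-- The number of the `n` with `|n| ≤ X` and `T n`. -/
noncomputable def count (T : ℤ → Prop) (X : ℕ) : ℕ := ((Finset.Icc (-(X : ℤ)) X).filter T).card

/-- The constant `0.4194...` -/
noncomputable def c₂ : ℝ := ∏' i : ℕ, (1 - (1 / 2 : ℝ) ^ (2 * i + 1))

/-! ### The tower -/

/-- The field `ℚ(√-p, √D_j, √D_{j+1}, ...)` in an algebraic closure of `ℚ`, `p = 7` or `3`. -/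
noncomputable def TowerField (g : Bool) (D : ℕ → ℕ) (j : ℕ) : IntermediateField ℚ (AlgebraicClosure ℚ) :=
  adjoin ℚ {x : AlgebraicClosure ℚ | x ^ 2 = -(ram g : AlgebraicClosure ℚ) ∨
    ∃ e ∈ {e : ℕ | ∃ i, j ≤ i ∧ e = D i}, x ^ 2 = (e : AlgebraicClosure ℚ)}

/-- All the points of `E` over `K` have finite order. -/
def AllTorsion (K : Type) [Field K] (E : WeierstrassCurve K) : Prop :=
  ∀ P : E.toAffine.Point, IsOfFinAddOrder P

/-- The index from which on the tower serves `n`: `0` for the `n` in `A`, and `|n|` for the others. -/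
def start (A : Finset ℤ) (n : ℤ) : ℕ := if n ∈ A then 0 else n.natAbs

/-! ### The proof -/

section proof

open Pool.Agent.L0h2.XP (RPf RPt Dnf Dnt ca cb)
open Pool.Agent.L0h86.XF (RP DnF Cv tt_cv)
open Pool.Agent.L0h1.CM (TT2)
open Pool.Agent.L0h1.GT (Tow)

lemma root_iff {g : Bool} {n : ℤ} (hn : Squarefree n) : RootPlus g n ↔ RP g n := by
  cases g
  · rw [RPf hn]
    exact Iff.rfl
  · rw [RPt hn]
    exact Iff.rfl

lemma tt_iff (g : Bool) (n : ℤ) : TrivialTwo g n ↔ TT2 (Cv g n) := by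
  cases g
  · exact Iff.rfl
  · exact Iff.rfl

lemma curve_eq (K : Type) [Field K] (g : Bool) (n : ℤ) :
    curve K g n = Pool.Agent.L0h74.NF.Sw K (ca g n) (cb g n) := by
  cases g
  · show (⟨0, 0, 0, -35 * (n : K) ^ 2, -98 * (n : K) ^ 3⟩ : WeierstrassCurve K) =
      Pool.Agent.L0h74.NF.Sw K (-35 * n ^ 2) (-98 * n ^ 3)
    unfold Pool.Agent.L0h74.NF.Sw
    push_cast
    rfl
  · show (⟨0, 0, 0, 0, (n : K) ^ 3⟩ : WeierstrassCurve K) =
      Pool.Agent.L0h74.NF.Sw K 0 (n ^ 3)
    unfold Pool.Agent.L0h74.NF.Sw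
    push_cast
    rfl

lemma conv {K : Type} [Field K] [NumberField K] {a b : ℤ}
    (h : Pool.Agent.L0h74.NF.OrdRank (Pool.Agent.L0h74.NF.Sw K a b) ∧
      ∀ P : (Pool.Agent.L0h74.NF.Sw K a b).toAffine.Point, IsOfFinAddOrder P) :
    OrderRankZero K (Pool.Agent.L0h74.NF.Sw K a b) := by
  obtain ⟨⟨h1, h2, h3⟩, h0⟩ := h
  refine ⟨h0, h1, h2, fun M hM => ?_⟩
  obtain ⟨h4, h5⟩ := h3 M hM
  exact ⟨h4, fun U f a1 a2 a3 a4 a5 a6 => h5 U f a1 a2 a3 a4 a5 a6⟩

lemma cn_count {T U : ℤ → Prop} (X : ℕ) (h : ∀ e, U e ↔ Squarefree e ∧ T e) :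
    Pool.Agent.L0h74.AP.cnt Int.natAbs T X = count U X := by
  unfold Pool.Agent.L0h74.AP.cnt count
  refine congrArg Finset.card (Finset.ext fun e => ?_)
  rw [Finset.mem_filter, Finset.mem_filter]
  refine and_congr_right fun he => ?_
  rw [Finset.mem_Icc] at he
  rw [h]
  exact ⟨fun h1 => ⟨h1.1, h1.2.2⟩, fun h1 => ⟨h1.1, by omega, h1.2⟩⟩

theorem proportion (g : Bool) {q : ℕ} (hq : 0 < q) {r : ℤ} {σ : Set ℤ}
    (hne : ∃ n, Class g q r σ n) :
    Tendsto (fun X : ℕ => (count (fun n => Class g q r σ n ∧ TrivialTwo g n) X : ℝ) /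
      (count (Class g q r σ) X : ℝ)) atTop (𝓝 (c₂ / 2)) := by
  obtain ⟨e₀, h1, h2, h3⟩ := hne
  have key := Pool.Agent.L0h1.GT.law_one g hq h1 ⟨(root_iff h1).1 h2, h3⟩
  refine key.congr fun X => congrArg₂ (fun a b : ℕ => (a : ℝ) / (b : ℝ)) ?_ ?_
  · refine cn_count X fun e => ?_
    unfold Class
    constructor
    · rintro ⟨⟨a1, a2, a3⟩, a4⟩
      exact ⟨a1, ⟨(root_iff a1).1 a2, a3⟩, (tt_iff g e).1 a4⟩
    · rintro ⟨a1, ⟨a2, a3⟩, a4⟩
      exact ⟨⟨a1, (root_iff a1).2 a2, a3⟩, (tt_iff g e).2 a4⟩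
  · refine cn_count X fun e => ?_
    unfold Class
    constructor
    · rintro ⟨a1, a2, a3⟩
      exact ⟨a1, (root_iff a1).1 a2, a3⟩
    · rintro ⟨a1, a2, a3⟩
      exact ⟨a1, (root_iff a1).2 a2, a3⟩

end proof

/-- **One infinite tower of base fields for all the good twists of both representations.** -/
theorem result :
    -- (0) the exact proportion of the good twists
    (∀ (g : Bool) (q : ℕ) (r : ℤ) (σ : Set ℤ), 0 < q → (∃ n, Class g q r σ n) →
      Tendsto (fun X : ℕ => (count (fun n => Class g q r σ n ∧ TrivialTwo g n) X : ℝ) /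
        (count (Class g q r σ) X : ℝ)) atTop (𝓝 (c₂ / 2))) ∧
    (0.4194 < c₂ ∧ c₂ < 0.4195) ∧
    -- (1) one tower for all of them
    ∀ (m : ℕ) (r : ℤ), 0 < m → 84 ∣ m → IsCoprime r (m : ℤ) → r % 84 = 1 → ∀ A : Finset ℤ,
      ∃ D : ℕ → ℕ, (∀ i, Squarefree (D i) ∧ 1 < D i ∧ (D i : ℤ) ≡ r [ZMOD (m : ℤ)]) ∧
        (∀ i j, i ≠ j → (D i).Coprime (D j)) ∧
        ∀ (g : Bool) (n : ℤ), Squarefree n → RootPlus g n → TrivialTwo g n →
          (∀ T : Finset ℕ, (∀ i ∈ T, start A n ≤ i) →
            Squarefree (n * ((∏ i ∈ T, D i : ℕ) : ℤ)) ∧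
            RootPlus g (n * ((∏ i ∈ T, D i : ℕ) : ℤ)) ∧
            TrivialTwo g (n * ((∏ i ∈ T, D i : ℕ) : ℤ))) ∧
          (∀ (K : Type) [Field K] [NumberField K], Nonempty (K →+* TowerField g D (start A n)) →
            OrderRankZero K (curve K g n)) ∧
          AllTorsion (TowerField g D (start A n)) (curve (TowerField g D (start A n)) g n) := by
  refine ⟨fun g q r σ hq hne => proportion g hq hne, Pool.Agent.Y948.CQ.t_C2.2.2.2,
    fun m r hm h84 hr hr1 A => ?_⟩
  obtain ⟨D, h1, h2, h3⟩ := Pool.Agent.L0h1.GT.tower' hm h84 hr hr1 A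
  refine ⟨D, h1, h2, fun g n hn hR hT => ?_⟩
  have hR' := (root_iff hn).1 hR
  have h4 := h3 g n hn hR' ((Pool.Agent.L0h86.XF.tt_cv hR').1 ((tt_iff g n).1 hT))
  have h5 : Pool.Agent.L0h1.GT.Tow g n D (start A n) := h4
  have key : ∀ (K : Type) [Field K] [NumberField K], (K →+* TowerField g D (start A n)) →
      Pool.Agent.L0h74.NF.OrdRank (Pool.Agent.L0h74.NF.Sw K (Pool.Agent.L0h2.XP.ca g n)
        (Pool.Agent.L0h2.XP.cb g n)) ∧
      ∀ P : (Pool.Agent.L0h74.NF.Sw K (Pool.Agent.L0h2.XP.ca g n)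
        (Pool.Agent.L0h2.XP.cb g n)).toAffine.Point, IsOfFinAddOrder P := fun K _ _ φ =>
    Pool.Agent.L0h1.GT.fields hn h5 ((TowerField g D (start A n)).val.toRingHom.comp φ)
      (fun y => (φ y).2)
  refine ⟨fun T hTT => ?_, fun K _ _ hK => ?_, ?_⟩
  · obtain ⟨k1, k2, k3⟩ := h5.all T hTT
    exact ⟨k1, (root_iff k1).2 k2, (tt_iff g _).2 ((Pool.Agent.L0h86.XF.tt_cv k2).2 k3)⟩
  · obtain ⟨φ⟩ := hK
    rw [curve_eq]
    exact conv (key K φ)
  · have ha := Pool.Agent.L0h2.P.TOW.alg_of (Ω := TowerField g D (start A n))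
      (TowerField g D (start A n)).val.toRingHom
    rw [curve_eq]
    exact Pool.Agent.L0h2.P.TOW.tors_alg (Ω := TowerField g D (start A n)) _ _
      (fun K _ _ φ => (key K φ).2)

end Pool.Agent.Results.MP_50bb2e_nt.UniversalTower
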